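import Pool.Agent.Helper14.KD.U

/-!
Second moments of the drift, decay of its correlations, row sums (as in project KP, with the tails `TailU`, `LongT`).
-/

open Finset RP4 KP

namespace KD

/-! ### C1: probability of a tower -/

theorem avg_negf (D : Finset V) (F : (V → ℤ) → ℝ) : avg (Om D) (fun h => F (fun v => -h v)) = avg (Om D) F := by
  have h := avg_neg_Om (D := D) F
  rw [← h]
  rfl

theorem prob_up {D S : Finset V} {R : ℕ} {C : ℝ} (hT : TailU D S R C) {x d : V} {l : ℕ} (hx : x ∈ S)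
    (hd : d ∈ dirs) (hl : 1 ≤ l) (hlR : l ≤ R) :
    avg (Om D) (fun h => ind (Up h x d l)) ≤ C / (l : ℝ) ^ 16 ∧
      avg (Om D) (fun h => ind (Down h x d l)) ≤ C / (l : ℝ) ^ 16 := by
  refine ⟨hT x hx d hd l hl hlR, ?_⟩
  have h1 := avg_negf D (fun h => ind (Up h x d l))
  exact h1.le.trans (hT x hx d hd l hl hlR)

/-! ### C2: second moment -/

private lemma C2_avg_sum {ι : Type*} (S : Finset (V → ℤ)) (t : Finset ι)
    (F : ι → (V → ℤ) → ℝ) : avg S (fun h => ∑ i ∈ t, F i h) = ∑ i ∈ t, avg S (F i) := by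
  unfold avg
  rw [Finset.sum_comm, Finset.sum_div]

private lemma C2_avg_mul (S : Finset (V → ℤ)) (a : ℝ) (F : (V → ℤ) → ℝ) :
    avg S (fun h => a * F h) = a * avg S F := by
  unfold avg
  rw [← Finset.mul_sum, mul_div_assoc]

private lemma C2_avg_add (S : Finset (V → ℤ)) (F G : (V → ℤ) → ℝ) :
    avg S (fun h => F h + G h) = avg S F + avg S G := by
  unfold avg
  rw [Finset.sum_add_distrib, add_div]

private lemma C2_sum2 (a b : ℕ) : ∑ l ∈ Ioc a b, ((l : ℝ) ^ 2)⁻¹ ≤ 2 := by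
  have h1 : Ioc a b = Ioo a (b + 1) := by
    ext l
    simp only [mem_Ioc, mem_Ioo]
    omega
  rw [h1]
  have h2 := sum_Ioo_inv_sq_le (α := ℝ) a (b + 1)
  refine h2.trans ?_
  rw [div_le_iff₀ (by positivity)]
  have : (0 : ℝ) ≤ a := Nat.cast_nonneg a
  linarith

private lemma C2_tw (h : V → ℤ) (x d : V) (l : ℕ) (hl : 1 ≤ l) :
    tw h x d l ^ 2 ≤ 4 / (l : ℝ) ^ 2 * (ind (Up h x d l) + ind (Down h x d l)) := by
  have h1 := rho_nonneg l
  have h2 := rho_le l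
  have hl0 : (0 : ℝ) < l := by exact_mod_cast hl
  have h3 : (ind (Up h x d l) - ind (Down h x d l)) ^ 2 ≤
      ind (Up h x d l) + ind (Down h x d l) := by
    unfold ind
    split_ifs <;> norm_num
  have h4 : rho l ^ 2 ≤ 1 / (l : ℝ) ^ 2 := by
    calc rho l ^ 2 ≤ (1 / (l : ℝ)) ^ 2 := pow_le_pow_left₀ h1 h2 2
      _ = 1 / (l : ℝ) ^ 2 := by rw [div_pow, one_pow]
  unfold tw
  calc (2 * rho l * (ind (Up h x d l) - ind (Down h x d l))) ^ 2 =
        4 * rho l ^ 2 * (ind (Up h x d l) - ind (Down h x d l)) ^ 2 := by ring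
    _ ≤ 4 * (1 / (l : ℝ) ^ 2) * (ind (Up h x d l) + ind (Down h x d l)) := by
        refine mul_le_mul (by linarith) h3 (sq_nonneg _) (by positivity)
    _ = _ := by ring

private lemma C2_point (R R' : ℕ) (hR' : R' ≤ R) (h : V → ℤ) (x : V) :
    (psi R h x - psi R' h x) ^ 2 ≤ ∑ d ∈ dirs, ∑ l ∈ Ioc R' R, ∑ i ∈ range l,
      32 * (l : ℝ) * (ind (Up h (pt x d (-(i : ℤ))) d l) +
        ind (Down h (pt x d (-(i : ℤ))) d l)) := by
  have e1 : ∀ n, Icc 1 n = Ioc 0 n := by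
    intro n
    ext l
    simp only [mem_Icc, mem_Ioc]
    omega
  have e2 : psi R h x - psi R' h x = ∑ d ∈ dirs, ∑ l ∈ Ioc R' R, ∑ i ∈ range l,
      tw h (pt x d (-(i : ℤ))) d l := by
    unfold psi
    rw [← Finset.sum_sub_distrib]
    refine Finset.sum_congr rfl fun d _ => ?_
    rw [e1, e1, ← Finset.sum_Ioc_consecutive _ (Nat.zero_le R') hR']
    ring
  rw [e2]
  have hc : dirs.card = 4 := by decide
  have h1 := sq_sum_le_card_mul_sum_sq (s := dirs)
    (f := fun d => ∑ l ∈ Ioc R' R, ∑ i ∈ range l, tw h (pt x d (-(i : ℤ))) d l)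
  rw [hc] at h1
  refine h1.trans ?_
  rw [Finset.mul_sum]
  refine Finset.sum_le_sum fun d _ => ?_
  have hpos : ∀ l ∈ Ioc R' R, (0 : ℝ) < l := by
    intro l hl
    have : 0 < l := lt_of_le_of_lt (Nat.zero_le _) (Finset.mem_Ioc.1 hl).1
    exact_mod_cast this
  have h3 := Finset.sum_mul_sq_le_sq_mul_sq (Ioc R' R) (fun l : ℕ => ((l : ℝ))⁻¹)
    (fun l : ℕ => (l : ℝ) * ∑ i ∈ range l, tw h (pt x d (-(i : ℤ))) d l)
  have h4 : ∑ l ∈ Ioc R' R, ((l : ℝ))⁻¹ * ((l : ℝ) *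
      ∑ i ∈ range l, tw h (pt x d (-(i : ℤ))) d l) =
      ∑ l ∈ Ioc R' R, ∑ i ∈ range l, tw h (pt x d (-(i : ℤ))) d l :=
    Finset.sum_congr rfl fun l hl => inv_mul_cancel_left₀ (hpos l hl).ne' _
  rw [h4] at h3
  have h5 : ∑ l ∈ Ioc R' R, ((l : ℝ)⁻¹) ^ 2 ≤ 2 := by
    refine le_trans (le_of_eq ?_) (C2_sum2 R' R)
    exact Finset.sum_congr rfl fun l _ => by rw [inv_pow]
  have h6 : ∀ l ∈ Ioc R' R, ((l : ℝ) * ∑ i ∈ range l, tw h (pt x d (-(i : ℤ))) d l) ^ 2 ≤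
      ∑ i ∈ range l, 4 * (l : ℝ) * (ind (Up h (pt x d (-(i : ℤ))) d l) +
        ind (Down h (pt x d (-(i : ℤ))) d l)) := by
    intro l hl
    have hl0 := hpos l hl
    have hl1 : 1 ≤ l := by exact_mod_cast hl0
    have h7 := sq_sum_le_card_mul_sum_sq (s := range l)
      (f := fun i => tw h (pt x d (-(i : ℤ))) d l)
    rw [Finset.card_range] at h7
    rw [mul_pow]
    calc (l : ℝ) ^ 2 * (∑ i ∈ range l, tw h (pt x d (-(i : ℤ))) d l) ^ 2
        ≤ (l : ℝ) ^ 2 * (l * ∑ i ∈ range l, tw h (pt x d (-(i : ℤ))) d l ^ 2) :=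
          mul_le_mul_of_nonneg_left h7 (by positivity)
      _ ≤ (l : ℝ) ^ 2 * (l * ∑ i ∈ range l, 4 / (l : ℝ) ^ 2 *
            (ind (Up h (pt x d (-(i : ℤ))) d l) + ind (Down h (pt x d (-(i : ℤ))) d l))) := by
          refine mul_le_mul_of_nonneg_left (mul_le_mul_of_nonneg_left ?_ hl0.le) (by positivity)
          exact Finset.sum_le_sum fun i _ => C2_tw h _ d l hl1
      _ = ∑ i ∈ range l, 4 * (l : ℝ) * (ind (Up h (pt x d (-(i : ℤ))) d l) +
            ind (Down h (pt x d (-(i : ℤ))) d l)) := by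
          rw [Finset.mul_sum, Finset.mul_sum]
          refine Finset.sum_congr rfl fun i _ => ?_
          field_simp
  have h8 : ∑ l ∈ Ioc R' R, ((l : ℝ) * ∑ i ∈ range l, tw h (pt x d (-(i : ℤ))) d l) ^ 2 ≤
      ∑ l ∈ Ioc R' R, ∑ i ∈ range l, 4 * (l : ℝ) * (ind (Up h (pt x d (-(i : ℤ))) d l) +
        ind (Down h (pt x d (-(i : ℤ))) d l)) := Finset.sum_le_sum h6
  have h9 : (∑ l ∈ Ioc R' R, ∑ i ∈ range l, tw h (pt x d (-(i : ℤ))) d l) ^ 2 ≤
      2 * ∑ l ∈ Ioc R' R, ∑ i ∈ range l, 4 * (l : ℝ) *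
        (ind (Up h (pt x d (-(i : ℤ))) d l) + ind (Down h (pt x d (-(i : ℤ))) d l)) :=
    h3.trans (mul_le_mul h5 h8 (Finset.sum_nonneg fun l _ => sq_nonneg _) zero_le_two)
  calc (((4 : ℕ) : ℝ)) * (∑ l ∈ Ioc R' R, ∑ i ∈ range l, tw h (pt x d (-(i : ℤ))) d l) ^ 2
      ≤ ((4 : ℕ) : ℝ) * (2 * ∑ l ∈ Ioc R' R, ∑ i ∈ range l, 4 * (l : ℝ) *
        (ind (Up h (pt x d (-(i : ℤ))) d l) + ind (Down h (pt x d (-(i : ℤ))) d l))) :=
        mul_le_mul_of_nonneg_left h9 (by positivity)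
    _ = ∑ l ∈ Ioc R' R, ∑ i ∈ range l, 32 * (l : ℝ) *
        (ind (Up h (pt x d (-(i : ℤ))) d l) + ind (Down h (pt x d (-(i : ℤ))) d l)) := by
        rw [Finset.mul_sum, Finset.mul_sum]
        refine Finset.sum_congr rfl fun l _ => ?_
        rw [Finset.mul_sum, Finset.mul_sum]
        refine Finset.sum_congr rfl fun i _ => ?_
        push_cast
        ring

/-
`psi R h x - psi R' h x = ∑_{d} ∑_{l ∈ Ioc R' R} ∑_{i < l} tw h (pt x d (-i)) d l`.  Cauchy-Schwarz with the weights `l^3`: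
`(∑ tw)^2 ≤ (∑_{d,l,i} l^{-3}) (∑_{d,l,i} l^3 tw^2)`, first factor `≤ 4 ∑_l l^{-2} ≤ 8`; `tw^2 ≤ (4 / l^2) (ind Up + ind Down)` (`rho_le`), so by `prob_up`
`E ∑ l^3 tw^2 ≤ 4 ∑_{l > R'} l * l^3 * (4 / l^2) * (2 C / l^16) = 32 C ∑_{l > R'} l^{-14} ≤ 32 C (R'+1)^{-12} ∑ l^{-2} ≤ 64 C / (R'+1)^12`.
(Use `∑_{l ∈ Icc 1 R} 1 / l^2 ≤ 2`, e.g. by induction `≤ 2 - 1/R`.)
-/
theorem psi_diff_sq {D S : Finset V} {R : ℕ} {C : ℝ} (hC : 0 ≤ C) (hT : TailU D S R C) {x : V}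
    (hS : ∀ v, dist1 x v ≤ R → v ∈ S) {R' : ℕ} (hR' : R' ≤ R) :
    avg (Om D) (fun h => (psi R h x - psi R' h x) ^ 2) ≤ 1024 * C / ((R' : ℝ) + 1) ^ 12 := by
  have hpt : ∀ d ∈ dirs, ∀ i : ℕ, dist1 x (pt x d (-(i : ℤ))) = i := by
    intro d hd i
    unfold dist1 pt
    rcases mem_dirs.1 hd with rfl | rfl | rfl | rfl <;> simp
  have h1 : avg (Om D) (fun h => (psi R h x - psi R' h x) ^ 2) ≤
      avg (Om D) (fun h => ∑ d ∈ dirs, ∑ l ∈ Ioc R' R, ∑ i ∈ range l,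
        32 * (l : ℝ) * (ind (Up h (pt x d (-(i : ℤ))) d l) +
          ind (Down h (pt x d (-(i : ℤ))) d l))) :=
    avg_mono fun h _ => C2_point R R' hR' h x
  refine h1.trans ?_
  rw [C2_avg_sum]
  have h2 : ∀ d ∈ dirs, avg (Om D) (fun h => ∑ l ∈ Ioc R' R, ∑ i ∈ range l,
      32 * (l : ℝ) * (ind (Up h (pt x d (-(i : ℤ))) d l) +
        ind (Down h (pt x d (-(i : ℤ))) d l))) ≤ 128 * C / ((R' : ℝ) + 1) ^ 12 := by
    intro d hd
    rw [C2_avg_sum]
    have h3 : ∀ l ∈ Ioc R' R, avg (Om D) (fun h => ∑ i ∈ range l,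
        32 * (l : ℝ) * (ind (Up h (pt x d (-(i : ℤ))) d l) +
          ind (Down h (pt x d (-(i : ℤ))) d l))) ≤
        64 * C / ((R' : ℝ) + 1) ^ 12 * ((l : ℝ) ^ 2)⁻¹ := by
      intro l hl
      obtain ⟨hl1, hl2⟩ := Finset.mem_Ioc.1 hl
      have hl0 : (0 : ℝ) < l := by
        have : 0 < l := by omega
        exact_mod_cast this
      rw [C2_avg_sum]
      have h4 : ∀ i ∈ range l, avg (Om D) (fun h =>
          32 * (l : ℝ) * (ind (Up h (pt x d (-(i : ℤ))) d l) +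
            ind (Down h (pt x d (-(i : ℤ))) d l))) ≤ 32 * (l : ℝ) * (2 * (C / (l : ℝ) ^ 16)) := by
        intro i hi
        have hi' := Finset.mem_range.1 hi
        have hmem : pt x d (-(i : ℤ)) ∈ S := hS _ (by rw [hpt d hd i]; exact_mod_cast (by omega))
        obtain ⟨h5, h6⟩ := prob_up hT hmem hd (show 1 ≤ l by omega) hl2
        rw [C2_avg_mul, C2_avg_add]
        refine mul_le_mul_of_nonneg_left ?_ (by positivity)
        linarith
      refine (Finset.sum_le_sum h4).trans ?_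
      rw [Finset.sum_const, Finset.card_range, nsmul_eq_mul]
      have h7 : (l : ℝ) * (32 * (l : ℝ) * (2 * (C / (l : ℝ) ^ 16))) =
          64 * C * ((l : ℝ) ^ 12)⁻¹ * ((l : ℝ) ^ 2)⁻¹ := by
        field_simp
        ring
      rw [h7, div_eq_mul_inv]
      refine mul_le_mul_of_nonneg_right (mul_le_mul_of_nonneg_left ?_ (by positivity))
        (by positivity)
      have h8 : ((R' : ℝ) + 1) ≤ l := by exact_mod_cast (by omega : R' + 1 ≤ l)
      exact inv_anti₀ (by positivity) (pow_le_pow_left₀ (by positivity) h8 12)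
    refine (Finset.sum_le_sum h3).trans ?_
    rw [← Finset.mul_sum]
    have h9 : 0 ≤ 64 * C / ((R' : ℝ) + 1) ^ 12 := by positivity
    calc 64 * C / ((R' : ℝ) + 1) ^ 12 * ∑ l ∈ Ioc R' R, ((l : ℝ) ^ 2)⁻¹
        ≤ 64 * C / ((R' : ℝ) + 1) ^ 12 * 2 := mul_le_mul_of_nonneg_left (C2_sum2 R' R) h9
      _ = 128 * C / ((R' : ℝ) + 1) ^ 12 := by ring
  refine (Finset.sum_le_sum h2).trans ?_
  have hc : dirs.card = 4 := by decide
  rw [Finset.sum_const, hc, nsmul_eq_mul]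
  have h10 : 0 ≤ C / ((R' : ℝ) + 1) ^ 12 := by positivity
  have h11 : (((4 : ℕ) : ℝ)) * (128 * C / ((R' : ℝ) + 1) ^ 12) =
      512 * (C / ((R' : ℝ) + 1) ^ 12) := by
    push_cast
    ring
  have h12 : 1024 * C / ((R' : ℝ) + 1) ^ 12 = 1024 * (C / ((R' : ℝ) + 1) ^ 12) := by ring
  rw [h11, h12]
  linarith

/-
`R' = 0` in `psi_diff_sq` (`psi 0 h x = 0`).
-/
theorem psi_sq {D S : Finset V} {R : ℕ} {C : ℝ} (hC : 0 ≤ C) (hT : TailU D S R C) {x : V}
    (hS : ∀ v, dist1 x v ≤ R → v ∈ S) : avg (Om D) (fun h => psi R h x ^ 2) ≤ 1024 * C := by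
  have h1 := psi_diff_sq hC hT hS (Nat.zero_le R)
  have h2 : ∀ h : V → ℤ, psi 0 h x = 0 := by
    intro h
    unfold psi
    simp
  simp only [h2, sub_zero] at h1
  refine h1.trans (le_of_eq ?_)
  norm_num

/-! ### C3: decay of the correlations -/

/-
`m = dist1 x y`, `R' = m / 3` (natural number division).  If `R ≤ R'`: `psi_far` (`R + 2 R ≤ m`) gives `0`.  Otherwise
`ψ_x ψ_y = (ψ_x - ψ'_x) ψ_y + ψ'_x (ψ_y - ψ'_y) + ψ'_x ψ'_y` (`'` = with `R'`), the last average is `0` by `psi_far`, the first two are bounded by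
`1024 C / (R'+1)^6` by `avg_cs`, `psi_diff_sq`, `psi_sq` (for `ψ'`: `TailU D S R' C` follows from `hT`).  Finally `m + 1 ≤ 3 (R' + 1)`, `2048 * 3^6 = 1492992`.
-/
theorem psi_corr {D S : Finset V} {R : ℕ} {C : ℝ} (hC : 0 ≤ C) (hT : TailU D S R C) {x y : V}
    (hxD : ∀ v, dist1 x v ≤ R → v ∈ D) (hxS : ∀ v, dist1 x v ≤ R → v ∈ S)
    (hyS : ∀ v, dist1 y v ≤ R → v ∈ S) :
    |avg (Om D) (fun h => psi R h x * psi R h y)| ≤ 1492992 * C / ((dist1 x y : ℝ) + 1) ^ 6 := by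
  have hm0 : 0 ≤ dist1 x y := by
    unfold dist1
    positivity
  obtain ⟨m, hm⟩ : ∃ m : ℕ, dist1 x y = m := ⟨(dist1 x y).toNat, (Int.toNat_of_nonneg hm0).symm⟩
  set R' : ℕ := m / 3 with hR'
  have hmR : 3 * R' ≤ m := by omega
  have hmR2 : m + 1 ≤ 3 * (R' + 1) := by omega
  have hmR3 : (m : ℝ) + 1 ≤ 3 * ((R' : ℝ) + 1) := by exact_mod_cast hmR2
  have hcast : (dist1 x y : ℝ) = m := by
    rw [hm]
    norm_num
  rw [hcast]
  rcases le_or_gt R R' with h | h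
  · rw [show avg (Om D) (fun h => psi R h x * psi R h y) = 0 by
      unfold avg
      rw [psi_far D x y R R hxD (by omega), zero_div], abs_zero]
    positivity
  · have hle : R' ≤ R := h.le
    have hle' : (R' : ℤ) ≤ R := by exact_mod_cast hle
    have hT' : TailU D S R' C := fun z hz d hd l hl1 hl => hT z hz d hd l hl1 (hl.trans hle)
    have a1 := psi_diff_sq hC hT hxS hle
    have a2 := psi_diff_sq hC hT hyS hle
    have b1 := psi_sq hC hT hyS
    have b2 := psi_sq hC hT' (x := x) (fun v hv => hxS v (hv.trans hle'))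
    have c : avg (Om D) (fun h => psi R' h x * psi R' h y) = 0 := by
      unfold avg
      rw [psi_far D x y R' R' (fun v hv => hxD v (hv.trans hle')) (by omega), zero_div]
    have hsplit : avg (Om D) (fun h => psi R h x * psi R h y) =
        avg (Om D) (fun h => (psi R h x - psi R' h x) * psi R h y) +
          avg (Om D) (fun h => psi R' h x * (psi R h y - psi R' h y)) +
          avg (Om D) (fun h => psi R' h x * psi R' h y) := by
      rw [← C2_avg_add, ← C2_avg_add]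
      congr 1
      funext h
      ring
    have hP : (0 : ℝ) < ((R' : ℝ) + 1) ^ 6 := by positivity
    have hB : 0 ≤ 1024 * C / ((R' : ℝ) + 1) ^ 6 := by positivity
    have hsq : ∀ u v : ℝ, 0 ≤ u → 0 ≤ v → u ≤ 1024 * C / ((R' : ℝ) + 1) ^ 12 → v ≤ 1024 * C →
        u * v ≤ (1024 * C / ((R' : ℝ) + 1) ^ 6) ^ 2 := by
      intro u v hu hv h1 h2
      calc u * v ≤ 1024 * C / ((R' : ℝ) + 1) ^ 12 * (1024 * C) :=
            mul_le_mul h1 h2 hv (by positivity)
        _ = (1024 * C / ((R' : ℝ) + 1) ^ 6) ^ 2 := by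
            rw [div_pow, ← pow_mul]
            ring
    have hnn : ∀ F : (V → ℤ) → ℝ, 0 ≤ avg (Om D) (fun h => F h ^ 2) := by
      intro F
      unfold avg
      positivity
    have t1 : |avg (Om D) (fun h => (psi R h x - psi R' h x) * psi R h y)| ≤
        1024 * C / ((R' : ℝ) + 1) ^ 6 := by
      refine abs_le_of_sq_le_sq (le_trans (avg_cs _ _ _) ?_) hB
      exact hsq _ _ (hnn _) (hnn _) a1 b1
    have t2 : |avg (Om D) (fun h => psi R' h x * (psi R h y - psi R' h y))| ≤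
        1024 * C / ((R' : ℝ) + 1) ^ 6 := by
      refine abs_le_of_sq_le_sq (le_trans (avg_cs _ _ _) ?_) hB
      rw [mul_comm]
      exact hsq _ _ (hnn _) (hnn _) a2 b2
    rw [hsplit, c, add_zero]
    refine (abs_add_le _ _).trans ((add_le_add t1 t2).trans ?_)
    have h6 : ((m : ℝ) + 1) ^ 6 ≤ 729 * ((R' : ℝ) + 1) ^ 6 := by
      have := pow_le_pow_left₀ (by positivity) hmR3 6
      rw [mul_pow] at this
      norm_num at this
      exact this
    rw [← add_div, div_le_div_iff₀ hP (by positivity)]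
    have h7 : 0 ≤ 2048 * C := by positivity
    nlinarith [mul_le_mul_of_nonneg_left h6 h7]

/-
`psi_far` with `R' = R`.
-/
theorem psi_corr_zero {D : Finset V} {R : ℕ} {x y : V} (hxD : ∀ v, dist1 x v ≤ R → v ∈ D)
    (hxy : 3 * (R : ℤ) ≤ dist1 x y) : avg (Om D) (fun h => psi R h x * psi R h y) = 0 := by
  unfold avg
  rw [psi_far D x y R R hxD (by omega), zero_div]

/-! ### C4: row sums -/

/-
Pointwise `(chg - Lap)^2 ≤ 4 lng^2 ≤ 16 ∑_d ind(...)` (`chg_sub_lap`, four directions, indicators), then `TailU` with `l = R`: `64 C / (R+1)^16`.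
-/
theorem chg_lap_sq {D S : Finset V} {R : ℕ} {C : ℝ} (hR : 1 ≤ R) (hT : LongT D S R C) {y : V} (hy : y ∈ S)
    (hyD : ∀ v, dist1 y v ≤ R + 2 → v ∈ D) :
    avg (Om D) (fun h => (chg R h y - Lap h y) ^ 2) ≤ 256 * C / ((R : ℝ) + 1) ^ 16 := by
  have h7 : dirs.card = 4 := by
    unfold dirs
    decide
  have hsq : ∀ h : V → ℤ, lngU R h y ^ 2 ≤ 4 * ∑ d ∈ dirs, ind (Lg h y d R) := by
    intro h
    have h5 := sq_sum_le_card_mul_sum_sq (s := dirs) (f := fun d => ind (Lg h y d R))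
    have h6 : ∀ p : Prop, ind p ^ 2 = ind p := by
      intro p
      unfold ind
      split_ifs <;> norm_num
    rw [h7, Finset.sum_congr rfl fun d _ => h6 _] at h5
    exact_mod_cast h5
  have h1 : avg (Om D) (fun h => (chg R h y - Lap h y) ^ 2) ≤
      avg (Om D) (fun h => (∑ d ∈ dirs, 32 * ind (Lg h y d R)) +
        ∑ d ∈ dirs, 32 * ind (Lg (fun v => -h v) y d R)) := by
    refine avg_mono fun h hh => ?_
    have h2 := chg_sub_lap hR (unit_of_mem hh (x := y) (r := (R : ℤ) + 2) hyD)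
    have h3 : (chg R h y - Lap h y) ^ 2 ≤ (2 * (lngU R h y + lngU R (fun v => -h v) y)) ^ 2 := by
      rw [← sq_abs (chg R h y - Lap h y)]
      exact pow_le_pow_left₀ (abs_nonneg _) h2 2
    have h4 := hsq h
    have h5 := hsq (fun v => -h v)
    rw [← Finset.mul_sum, ← Finset.mul_sum]
    nlinarith [h3, h4, h5, sq_nonneg (lngU R h y - lngU R (fun v => -h v) y)]
  refine h1.trans ?_
  have h9 : avg (Om D) (fun h => (∑ d ∈ dirs, 32 * ind (Lg h y d R)) +
        ∑ d ∈ dirs, 32 * ind (Lg (fun v => -h v) y d R)) =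
      (∑ d ∈ dirs, avg (Om D) (fun h => 32 * ind (Lg h y d R))) +
        ∑ d ∈ dirs, avg (Om D) (fun h => 32 * ind (Lg (fun v => -h v) y d R)) := by
    unfold avg
    rw [Finset.sum_add_distrib, add_div]
    congr 1
    · rw [Finset.sum_comm, Finset.sum_div]
    · rw [Finset.sum_comm, Finset.sum_div]
  rw [h9]
  have h8 : ∀ d ∈ dirs, avg (Om D) (fun h => 32 * ind (Lg h y d R)) ≤
      32 * (C / ((R : ℝ) + 1) ^ 16) := by
    intro d hd
    have h10 : avg (Om D) (fun h => 32 * ind (Lg h y d R)) =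
        32 * avg (Om D) (fun h => ind (Lg h y d R)) := by
      unfold avg
      rw [← Finset.mul_sum, mul_div_assoc]
    rw [h10]
    exact mul_le_mul_of_nonneg_left (hT y hy d hd) (by norm_num)
  have h8' : ∀ d ∈ dirs, avg (Om D) (fun h => 32 * ind (Lg (fun v => -h v) y d R)) ≤
      32 * (C / ((R : ℝ) + 1) ^ 16) := by
    intro d hd
    exact (avg_negf D (fun h => 32 * ind (Lg h y d R))).le.trans (h8 d hd)
  refine (add_le_add (Finset.sum_le_sum h8) (Finset.sum_le_sum h8')).trans (le_of_eq ?_)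
  rw [Finset.sum_const, h7, nsmul_eq_mul]
  push_cast
  ring

private lemma C4b_tri (x y v : V) : dist1 x v ≤ dist1 x y + dist1 y v := by
  unfold dist1
  have h1 := abs_sub_le x.1 y.1 v.1
  have h2 := abs_sub_le x.2 y.2 v.2
  omega

private lemma C4b_card (x : V) (R : ℕ) : ((Box x (3 * R)).card : ℝ) = (6 * (R : ℝ) + 1) ^ 2 := by
  unfold Box
  rw [Finset.card_product, Int.card_Icc, Int.card_Icc]
  have e1 : (x.1 + ((3 * R : ℕ) : ℤ) + 1 - (x.1 - ((3 * R : ℕ) : ℤ))).toNat = 6 * R + 1 := by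
    omega
  have e2 : (x.2 + ((3 * R : ℕ) : ℤ) + 1 - (x.2 - ((3 * R : ℕ) : ℤ))).toNat = 6 * R + 1 := by
    omega
  rw [e1, e2]
  push_cast
  ring

private lemma C4b_nonneg (S : Finset (V → ℤ)) (F : (V → ℤ) → ℝ) (h : ∀ g, 0 ≤ F g) :
    0 ≤ avg S F := by
  unfold avg
  exact div_nonneg (Finset.sum_nonneg fun g _ => h g) (Nat.cast_nonneg _)

/-
`row_sum` with `N = 3 R`; each of the `(6 R + 1)^2 ≤ 49 (R+1)^2` terms is bounded by `√(1024 C) √(64 C / (R+1)^16) = 256 C / (R+1)^8` (`avg_cs`, `psi_sq`,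
`chg_lap_sq`).  `49 * 256 = 12544`.  (`dist1 x y ≤ 6 R` for `y ∈ Box x (3 R)`.)
-/
theorem row_bound {D S : Finset V} {R : ℕ} {C : ℝ} (hR : 1 ≤ R) (hC : 0 ≤ C) (hT : TailU D S R C)
    (hL : LongT D S R C) {x : V}
    (hxD : ∀ v, dist1 x v ≤ 8 * R + 8 → v ∈ D) (hxS : ∀ v, dist1 x v ≤ 8 * R + 8 → v ∈ S) :
    |∑ y ∈ Box x (3 * R), avg (Om D) (fun h => psi R h x * psi R h y)| ≤ 25088 * C / ((R : ℝ) + 1) ^ 6 := by
  have hψ : avg (Om D) (fun h => psi R h x ^ 2) ≤ 1024 * C :=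
    psi_sq hC hT (fun v hv => hxS v (by omega))
  have hterm : ∀ y ∈ Box x (3 * R),
      |avg (Om D) (fun h => psi R h x * (chg R h y - (Lap h y : ℝ)))| ≤
        512 * C / ((R : ℝ) + 1) ^ 8 := by
    intro y hy
    have hd : dist1 x y ≤ 6 * R := by
      obtain ⟨h1, h2⟩ := mem_Box.1 hy
      unfold dist1
      rw [abs_sub_comm x.1, abs_sub_comm x.2]
      push_cast at h1 h2
      omega
    have hyS : y ∈ S := hxS y (by omega)
    have hyD : ∀ v, dist1 y v ≤ R + 2 → v ∈ D := fun v hv => hxD v (by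
      have h1 := C4b_tri x y v
      omega)
    have h2 := chg_lap_sq hR hL hyS hyD
    have h1 := avg_cs (Om D) (fun h => psi R h x) (fun h => chg R h y - (Lap h y : ℝ))
    have h0 : 0 ≤ avg (Om D) (fun h => (chg R h y - (Lap h y : ℝ)) ^ 2) :=
      C4b_nonneg _ _ fun g => sq_nonneg _
    have h3 : (avg (Om D) (fun h => psi R h x * (chg R h y - (Lap h y : ℝ)))) ^ 2 ≤
        (512 * C / ((R : ℝ) + 1) ^ 8) ^ 2 := by
      calc (avg (Om D) (fun h => psi R h x * (chg R h y - (Lap h y : ℝ)))) ^ 2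
          ≤ avg (Om D) (fun h => psi R h x ^ 2) *
              avg (Om D) (fun h => (chg R h y - (Lap h y : ℝ)) ^ 2) := h1
        _ ≤ (1024 * C) * (256 * C / ((R : ℝ) + 1) ^ 16) :=
            mul_le_mul hψ h2 h0 (by positivity)
        _ = (512 * C / ((R : ℝ) + 1) ^ 8) ^ 2 := by
            rw [div_pow, ← pow_mul, ← mul_div_assoc]
            congr 1
            ring
    exact abs_le_of_sq_le_sq h3 (by positivity)
  have hrow : ∑ y ∈ Box x (3 * R), avg (Om D) (fun h => psi R h x * psi R h y) =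
      ∑ y ∈ Box x (3 * R), avg (Om D) (fun h => psi R h x * (chg R h y - (Lap h y : ℝ))) := by
    have h1 := row_sum D x R (3 * R) hR le_rfl (fun v hv => hxD v (by omega))
    unfold avg
    rw [← Finset.sum_div, ← Finset.sum_div, ← h1, Finset.sum_comm]
    congr 1
    refine Finset.sum_congr rfl fun h _ => ?_
    rw [Finset.mul_sum]
  rw [hrow]
  refine (Finset.abs_sum_le_sum_abs _ _).trans ?_
  refine (Finset.sum_le_card_nsmul _ _ _ hterm).trans ?_
  rw [nsmul_eq_mul, C4b_card]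
  have hR0 : (0 : ℝ) ≤ (R : ℝ) := Nat.cast_nonneg R
  have h1 : (6 * (R : ℝ) + 1) ^ 2 ≤ 49 * ((R : ℝ) + 1) ^ 2 := by nlinarith
  calc (6 * (R : ℝ) + 1) ^ 2 * (512 * C / ((R : ℝ) + 1) ^ 8)
      ≤ 49 * ((R : ℝ) + 1) ^ 2 * (512 * C / ((R : ℝ) + 1) ^ 8) :=
        mul_le_mul_of_nonneg_right h1 (by positivity)
    _ = 25088 * C / ((R : ℝ) + 1) ^ 6 := by
        have h2 : ((R : ℝ) + 1) ≠ 0 := by positivity
        field_simp
        ring

private lemma KPC5b_avg_sq (Sg : Finset (V → ℤ)) (S₀ : Finset V) (f : V → ℝ)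
    (P : (V → ℤ) → V → ℝ) :
    avg Sg (fun h => (∑ x ∈ S₀, f x * P h x) ^ 2) =
      ∑ x ∈ S₀, ∑ y ∈ S₀, f x * f y * avg Sg (fun h => P h x * P h y) := by
  have h1 : ∑ h ∈ Sg, (∑ x ∈ S₀, f x * P h x) ^ 2 =
      ∑ x ∈ S₀, ∑ y ∈ S₀, f x * f y * ∑ h ∈ Sg, P h x * P h y := by
    have h2 : ∑ h ∈ Sg, (∑ x ∈ S₀, f x * P h x) ^ 2 =
        ∑ h ∈ Sg, ∑ x ∈ S₀, ∑ y ∈ S₀, f x * f y * (P h x * P h y) := by
      refine Finset.sum_congr rfl fun h _ => ?_
      rw [sq, Finset.sum_mul_sum]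
      exact Finset.sum_congr rfl fun x _ => Finset.sum_congr rfl fun y _ => by ring
    rw [h2, Finset.sum_comm]
    refine Finset.sum_congr rfl fun x _ => ?_
    rw [Finset.sum_comm]
    exact Finset.sum_congr rfl fun y _ => by rw [Finset.mul_sum]
  unfold avg
  rw [h1, Finset.sum_div]
  refine Finset.sum_congr rfl fun x _ => ?_
  rw [Finset.sum_div]
  exact Finset.sum_congr rfl fun y _ => by rw [mul_div_assoc]

private lemma KPC5b_dist_nonneg (x y : V) : (0 : ℝ) ≤ (dist1 x y : ℝ) := by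
  have : 0 ≤ dist1 x y := by
    unfold dist1
    positivity
  exact_mod_cast this

private lemma KPC5b_first {D S : Finset V} {R T : ℕ} {C Λ : ℝ} (hC : 0 ≤ C) (hT : TailU D S R C)
    (hD : Deep D (Box (0, 0) (T + 3 * R)) (8 * R + 8)) (hS : Deep S (Box (0, 0) (T + 3 * R)) (8 * R + 8))
    (f : V → ℝ) (hfL : ∀ x y, |f x - f y| ≤ Λ * dist1 x y) :
    -(1 / 2) * (∑ x ∈ Box (0, 0) (T + 3 * R), ∑ y ∈ Box (0, 0) (T + 3 * R),
      (f x - f y) ^ 2 * avg (Om D) (fun h => psi R h x * psi R h y)) ≤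
      12000000 * C * Λ ^ 2 * (Box (0, 0) (T + 3 * R)).card := by
  have hR0 : (0 : ℤ) ≤ R := Int.natCast_nonneg R
  have h1 : ∀ x ∈ Box (0, 0) (T + 3 * R), -(1492992 * C * Λ ^ 2 * 16) ≤
      ∑ y ∈ Box (0, 0) (T + 3 * R),
        (f x - f y) ^ 2 * avg (Om D) (fun h => psi R h x * psi R h y) := by
    intro x hx
    have h2 : ∀ y ∈ Box (0, 0) (T + 3 * R), -(1492992 * C * Λ ^ 2 * (1 / ((dist1 x y : ℝ) + 1) ^ 4)) ≤
        (f x - f y) ^ 2 * avg (Om D) (fun h => psi R h x * psi R h y) := by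
      intro y hy
      have h3 := psi_corr hC hT (x := x) (y := y) (fun v hv => hD x hx v (by linarith))
        (fun v hv => hS x hx v (by linarith)) (fun v hv => hS y hy v (by linarith))
      have hd := KPC5b_dist_nonneg x y
      set t : ℝ := (dist1 x y : ℝ) with ht
      have h4 : (f x - f y) ^ 2 ≤ Λ ^ 2 * t ^ 2 := by
        rw [← mul_pow, ← sq_abs]
        exact pow_le_pow_left₀ (abs_nonneg _) (hfL x y) 2
      have h5 : |(f x - f y) ^ 2 * avg (Om D) (fun h => psi R h x * psi R h y)| ≤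
          (Λ ^ 2 * t ^ 2) * (1492992 * C / (t + 1) ^ 6) := by
        rw [abs_mul, abs_of_nonneg (sq_nonneg (f x - f y))]
        exact mul_le_mul h4 h3 (abs_nonneg _) (by positivity)
      have h6 : (Λ ^ 2 * t ^ 2) * (1492992 * C / (t + 1) ^ 6) ≤
          1492992 * C * Λ ^ 2 * (1 / (t + 1) ^ 4) := by
        have h7 : t ^ 2 / (t + 1) ^ 6 ≤ 1 / (t + 1) ^ 4 := by
          rw [div_le_div_iff₀ (by positivity) (by positivity)]
          have h8 : t ^ 2 ≤ (t + 1) ^ 2 := pow_le_pow_left₀ hd (by linarith) 2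
          calc t ^ 2 * (t + 1) ^ 4 ≤ (t + 1) ^ 2 * (t + 1) ^ 4 :=
                mul_le_mul_of_nonneg_right h8 (by positivity)
            _ = 1 * (t + 1) ^ 6 := by ring
        calc (Λ ^ 2 * t ^ 2) * (1492992 * C / (t + 1) ^ 6) =
              1492992 * C * Λ ^ 2 * (t ^ 2 / (t + 1) ^ 6) := by ring
          _ ≤ _ := mul_le_mul_of_nonneg_left h7 (by positivity)
      linarith [neg_abs_le ((f x - f y) ^ 2 * avg (Om D) (fun h => psi R h x * psi R h y))]
    refine le_trans ?_ (Finset.sum_le_sum h2)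
    rw [Finset.sum_neg_distrib, ← Finset.mul_sum, neg_le_neg_iff]
    exact mul_le_mul_of_nonneg_left (sum_dist_le x _) (by positivity)
  have h9 := Finset.sum_le_sum h1
  rw [Finset.sum_const, nsmul_eq_mul] at h9
  have h10 : 0 ≤ C * Λ ^ 2 * ((Box (0, 0) (T + 3 * R)).card : ℝ) := by positivity
  linarith

private lemma KPC5b_row {D S : Finset V} {R T : ℕ} {C B : ℝ} (hR : 1 ≤ R) (hC : 0 ≤ C)
    (hT : TailU D S R C) (hL : LongT D S R C)
    (hD : Deep D (Box (0, 0) (T + 3 * R)) (8 * R + 8)) (hS : Deep S (Box (0, 0) (T + 3 * R)) (8 * R + 8))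
    (f : V → ℝ) (hf0 : ∀ x, x ∉ Box (0, 0) T → f x = 0) (hfB : ∀ x, |f x| ≤ B)
    {x : V} (hx : x ∈ Box (0, 0) (T + 3 * R)) :
    f x ^ 2 * ∑ y ∈ Box (0, 0) (T + 3 * R), avg (Om D) (fun h => psi R h x * psi R h y) ≤
      25088 * C / ((R : ℝ) + 1) ^ 6 * B ^ 2 := by
  have hR0 : (0 : ℤ) ≤ R := Int.natCast_nonneg R
  have hb : 0 ≤ 25088 * C / ((R : ℝ) + 1) ^ 6 := by positivity
  by_cases hxT : x ∈ Box (0, 0) T
  · have hsub : Box x (3 * R) ⊆ Box (0, 0) (T + 3 * R) := by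
      intro y hy
      rw [mem_Box] at hy hxT ⊢
      push_cast at hy hxT ⊢
      simp only [sub_zero] at hxT ⊢
      constructor
      · have := abs_add_le (y.1 - x.1) x.1
        rw [sub_add_cancel] at this
        linarith [hy.1, hxT.1]
      · have := abs_add_le (y.2 - x.2) x.2
        rw [sub_add_cancel] at this
        linarith [hy.2, hxT.2]
    have h1 : ∑ y ∈ Box (0, 0) (T + 3 * R), avg (Om D) (fun h => psi R h x * psi R h y) =
        ∑ y ∈ Box x (3 * R), avg (Om D) (fun h => psi R h x * psi R h y) := by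
      refine (Finset.sum_subset hsub fun y _ hy => ?_).symm
      refine psi_corr_zero (fun v hv => hD x hx v (by linarith)) ?_
      by_contra hcon
      push Not at hcon
      refine hy ?_
      rw [mem_Box]
      unfold dist1 at hcon
      have e1 := abs_nonneg (x.1 - y.1)
      have e2 := abs_nonneg (x.2 - y.2)
      rw [abs_sub_comm y.1, abs_sub_comm y.2]
      push_cast
      constructor <;> linarith
    rw [h1]
    have h2 := row_bound hR hC hT hL (x := x) (fun v hv => hD x hx v hv) (fun v hv => hS x hx v hv)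
    have h3 : f x ^ 2 ≤ B ^ 2 := by
      rw [← sq_abs]
      exact pow_le_pow_left₀ (abs_nonneg _) (hfB x) 2
    calc f x ^ 2 * ∑ y ∈ Box x (3 * R), avg (Om D) (fun h => psi R h x * psi R h y) ≤
          f x ^ 2 * (25088 * C / ((R : ℝ) + 1) ^ 6) :=
        mul_le_mul_of_nonneg_left ((le_abs_self _).trans h2) (sq_nonneg _)
      _ ≤ B ^ 2 * (25088 * C / ((R : ℝ) + 1) ^ 6) := mul_le_mul_of_nonneg_right h3 hb
      _ = _ := mul_comm _ _
  · rw [hf0 x hxT]
    simp only [ne_eq, OfNat.ofNat_ne_zero, not_false_eq_true, zero_pow, zero_mul]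
    exact mul_nonneg hb (sq_nonneg _)

/-
`S₀ = Box 0 (T + 3 R)`, `c x y = avg (ψ_x ψ_y)`.  Expand the square, `quad_identity`.  First term: `(f x - f y)^2 ≤ Λ^2 dist^2`,
`psi_corr`, `dist^2 / (dist+1)^6 ≤ 1 / (dist+1)^4`, `sum_dist_le`: at most `(1/2) Λ^2 * 1492992 C * 16 * card ≤ 12000000 C Λ^2 card`.  Second term: only `x ∈ Box 0 T` matters
(`f x ≠ 0`), there `Box x (3R) ⊆ S₀` and `c x y = 0` for `y ∈ S₀ \ Box x (3R)` (`psi_corr_zero`, `dist1 ≥ sup distance`), then `row_bound`.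
-/
theorem quad_upper {D S : Finset V} {R T : ℕ} {C Λ B : ℝ} (hR : 1 ≤ R) (hC : 0 ≤ C) (hT : TailU D S R C)
    (hL : LongT D S R C)
    (hD : Deep D (Box (0, 0) (T + 3 * R)) (8 * R + 8)) (hS : Deep S (Box (0, 0) (T + 3 * R)) (8 * R + 8))
    (f : V → ℝ) (hf0 : ∀ x, x ∉ Box (0, 0) T → f x = 0) (hfL : ∀ x y, |f x - f y| ≤ Λ * dist1 x y)
    (hfB : ∀ x, |f x| ≤ B) :
    avg (Om D) (fun h => (∑ x ∈ Box (0, 0) (T + 3 * R), f x * psi R h x) ^ 2) ≤
      (12000000 * C * Λ ^ 2 + 25088 * C / ((R : ℝ) + 1) ^ 6 * B ^ 2) * (Box (0, 0) (T + 3 * R)).card := by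
  have hsym : ∀ x y : V, avg (Om D) (fun h => psi R h x * psi R h y) =
      avg (Om D) (fun h => psi R h y * psi R h x) := by
    intro x y
    congr 1
    funext h
    exact mul_comm _ _
  rw [KPC5b_avg_sq (Om D) _ f (fun h x => psi R h x), quad_identity _ f _ hsym, add_mul]
  refine add_le_add (KPC5b_first hC hT hD hS f hfL) ?_
  refine (Finset.sum_le_sum fun x hx => KPC5b_row hR hC hT hL hD hS f hf0 hfB hx).trans ?_
  rw [Finset.sum_const, nsmul_eq_mul, mul_comm]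

end KD
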