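import Pool.Agent.Helper58.KP.E
import Pool.Agent.Helper35.MD.Defs

/-!
# Project KD (MP_973bc8_pr): lower bound of the covariances of square ice in every domain

Tails of the towers (`TailU`) and of the long runs with prescribed neighbours (`LongT`); these hold in every domain.
-/

open Finset RP4 KP

namespace KD

/-- long run: from `x` in direction `d` the heights decrease by one at each of the first `R` steps, the side neighbours and the
neighbour behind `x` are one higher -/
def Lg (h : V → ℤ) (x d : V) (R : ℕ) : Prop :=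
  (∀ i : ℤ, 0 ≤ i → i < R → h (pt x d i) = h x - i ∧ h (pt (pt x d i) (prp d) 1) = h x - i + 1 ∧
    h (pt (pt x d i) (prp d) (-1)) = h x - i + 1) ∧ h (pt x d (-1)) = h x + 1 ∧ h (pt x d R) = h x - R

/-- number of directions with a long run -/
noncomputable def lngU (R : ℕ) (h : V → ℤ) (x : V) : ℝ := ∑ d ∈ dirs, ind (Lg h x d R)

/-- tails of the towers -/
def TailU (D S : Finset V) (R : ℕ) (C : ℝ) : Prop := ∀ x ∈ S, ∀ d ∈ dirs, ∀ l : ℕ, 1 ≤ l → l ≤ R →
  avg (Om D) (fun h => ind (Up h x d l)) ≤ C / (l : ℝ) ^ 16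

/-- probability of a long run -/
def LongT (D S : Finset V) (R : ℕ) (C : ℝ) : Prop := ∀ x ∈ S, ∀ d ∈ dirs,
  avg (Om D) (fun h => ind (Lg h x d R)) ≤ C / ((R : ℝ) + 1) ^ 16

end KD
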