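import Pool.Agent.Helper14.KD.C

/-!
The activity, the bilinear form of the drift.
-/

open Finset RP4 KP

namespace KD

/-! ### E1: activity -/

theorem chgU_lower {D S : Finset V} {R : ℕ} {C : ℝ} (hR : 1 ≤ R) (hT : LongT D S R C) {y : V} (hy : y ∈ S)
    (hyD : ∀ v, dist1 y v ≤ R + 2 → v ∈ D) :
    avg (Om D) (fun h => (Lap h y : ℝ) ^ 2) / 8 - 8 * C / ((R : ℝ) + 1) ^ 16 ≤
      avg (Om D) (fun h => chgU R h y) := by
  have hadd : ∀ F G : (V → ℤ) → ℝ, avg (Om D) (fun h => F h + G h) = avg (Om D) F + avg (Om D) G := by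
    intro F G
    unfold avg
    rw [Finset.sum_add_distrib, add_div]
  have hmul : ∀ (c : ℝ) (F : (V → ℤ) → ℝ), avg (Om D) (fun h => c * F h) = c * avg (Om D) F := by
    intro c F
    unfold avg
    rw [← Finset.mul_sum, mul_div_assoc]
  have e1 : avg (Om D) (fun h => max (-(Lap h y : ℝ)) 0) = avg (Om D) (fun h => max (Lap h y : ℝ) 0) := by
    rw [← avg_neg_Om (D := D) (fun h => max (Lap h y : ℝ) 0)]
    congr 1
    funext g
    have h1 : Lap (-g) y = -Lap g y := by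
      unfold Lap
      simp only [Pi.neg_apply]
      ring
    rw [h1]
    push_cast
    rfl
  have e2 : avg (Om D) (fun h => (1 / 4) * (Lap h y : ℝ) ^ 2) ≤
      avg (Om D) (fun h => max (Lap h y : ℝ) 0 + max (-(Lap h y : ℝ)) 0) := by
    refine avg_mono fun h hh => ?_
    have h1 := lap_sq_le (unit_of_mem hh (x := y) (r := 2) fun v hv => hyD v (by omega))
    linarith
  rw [hadd, hmul, e1] at e2
  have e3 : avg (Om D) (fun h => max (Lap h y : ℝ) 0 + (-2) * lngU R h y) ≤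
      avg (Om D) (fun h => chgU R h y) := by
    refine avg_mono fun h hh => ?_
    have h1 := (chgU_bounds hR (unit_of_mem hh (x := y) (r := (R : ℤ) + 2) hyD)).1
    linarith
  rw [hadd, hmul] at e3
  have e4 : avg (Om D) (fun h => lngU R h y) ≤ 4 * (C / ((R : ℝ) + 1) ^ 16) := by
    have h9 : avg (Om D) (fun h => lngU R h y) =
        ∑ d ∈ dirs, avg (Om D) (fun h => ind (Lg h y d R)) := by
      unfold avg lngU
      rw [Finset.sum_comm, Finset.sum_div]
    rw [h9]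
    refine (Finset.sum_le_sum fun d hd => hT y hy d hd).trans (le_of_eq ?_)
    have h7 : dirs.card = 4 := by
      unfold dirs
      decide
    rw [Finset.sum_const, h7, nsmul_eq_mul]
    push_cast
    ring
  have e5 : 8 * C / ((R : ℝ) + 1) ^ 16 = 8 * (C / ((R : ℝ) + 1) ^ 16) := by ring
  rw [e5]
  linarith

/-! ### E2: the form -/

/-- probability weight of a tower against `f` -/
noncomputable def qt (D : Finset V) (f : V → ℝ) (z d : V) (l : ℕ) : ℝ :=
  4 * rho l * avg (Om D) (fun h => ind (Up h z d l)) * ∑ j ∈ range l, f (pt z d j)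

lemma qt_nonneg (D : Finset V) {f : V → ℝ} (hf : ∀ x, 0 ≤ f x) (z d : V) (l : ℕ) : 0 ≤ qt D f z d l := by
  have h1 : 0 ≤ avg (Om D) (fun h => ind (Up h z d l)) :=
    div_nonneg (Finset.sum_nonneg fun _ _ => ind_nonneg _) (Nat.cast_nonneg _)
  have h2 := rho_nonneg l
  have h3 : 0 ≤ ∑ j ∈ range l, f (pt z d j) := Finset.sum_nonneg fun _ _ => hf _
  unfold qt
  positivity

theorem psi_lin {D S₀ : Finset V} {R : ℕ} (f : V → ℝ) (hf0 : ∀ x, x ∉ S₀ → f x = 0) {x : V}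
    (hx : ∀ v, dist1 x v ≤ R → v ∈ D) :
    avg (Om D) (fun h => psi R h x * ∑ z ∈ S₀, f z * (h z : ℝ)) =
      -∑ d ∈ dirs, ∑ l ∈ Icc 1 R, ∑ i ∈ range l, qt D f (pt x d (-(i : ℤ))) d l := by
  unfold avg
  rw [psi_ibp D x R hx (fun h => ∑ z ∈ S₀, f z * (h z : ℝ)), Finset.sum_div, ← Finset.sum_neg_distrib]
  refine Finset.sum_congr rfl fun d hd => ?_
  rw [Finset.sum_div, ← Finset.sum_neg_distrib]
  refine Finset.sum_congr rfl fun l hl => ?_
  rw [Finset.sum_div, ← Finset.sum_neg_distrib]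
  refine Finset.sum_congr rfl fun i hi => ?_
  have h2 : ∀ h ∈ Om D, ind (Up h (pt x d (-(i : ℤ))) d l) *
      ((∑ z ∈ S₀, f z * (h z : ℝ)) - ∑ z ∈ S₀, f z * (rz h (pt x d (-(i : ℤ))) d l z : ℝ)) =
      ind (Up h (pt x d (-(i : ℤ))) d l) *
        (-2 * ∑ j ∈ range l, f (pt (pt x d (-(i : ℤ))) d j)) := by
    intro h _
    rw [lin_rz _ f hf0 h _ d hd l]
  rw [Finset.sum_congr rfl h2, ← Finset.sum_mul]
  unfold qt avg
  ring

/-- far from the support of `f` the form vanishes -/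
theorem psi_lin_zero {D S₀ : Finset V} {R T : ℕ} (f : V → ℝ) (hf0 : ∀ x, x ∉ S₀ → f x = 0)
    (hfT : ∀ x, x ∉ Box (0, 0) T → f x = 0) {x : V} (hx : ∀ v, dist1 x v ≤ R → v ∈ D)
    (hxT : x ∉ Box (0, 0) (T + 3 * R)) :
    avg (Om D) (fun h => psi R h x * ∑ z ∈ S₀, f z * (h z : ℝ)) = 0 := by
  rw [psi_lin f hf0 hx, neg_eq_zero]
  refine Finset.sum_eq_zero fun d hd => Finset.sum_eq_zero fun l hl => Finset.sum_eq_zero fun i hi => ?_
  have h1 : ∑ j ∈ range l, f (pt (pt x d (-(i : ℤ))) d j) = 0 := by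
    refine Finset.sum_eq_zero fun j hj => hfT _ fun hm => hxT ?_
    rw [mem_Box] at hm ⊢
    have hl' := (Finset.mem_Icc.1 hl).2
    have hi' := Finset.mem_range.1 hi
    have hj' := Finset.mem_range.1 hj
    obtain ⟨h2, h3⟩ := hm
    rw [abs_le] at h2 h3
    rw [mem_dirs] at hd
    simp only [sub_zero] at h2 h3
    simp only [pt] at h2 h3
    simp only [sub_zero, abs_le]
    push_cast
    rcases hd with rfl | rfl | rfl | rfl <;> simp only [] at h2 h3 <;>
      refine ⟨⟨?_, ?_⟩, ?_, ?_⟩ <;> omega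
  unfold qt
  rw [h1, mul_zero]

private lemma E2_pt (x d : V) (i : ℤ) : pt (pt x d i) d (-i) = x := by
  unfold pt
  ext <;> simp

private lemma E2_mem {T R : ℕ} {x d : V} (hd : d ∈ dirs) {i : ℕ} (hi : i ≤ R)
    (hx : x ∈ Box (0, 0) T) : pt x d (i : ℤ) ∈ Box (0, 0) (T + 3 * R) := by
  rw [mem_Box] at hx ⊢
  obtain ⟨h1, h2⟩ := hx
  rw [abs_le] at h1 h2
  rw [mem_dirs] at hd
  simp only [sub_zero] at h1 h2
  simp only [pt, sub_zero, abs_le]
  push_cast
  rcases hd with rfl | rfl | rfl | rfl <;> refine ⟨⟨?_, ?_⟩, ?_, ?_⟩ <;> simp only [] <;> omega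

/-- the total form from below -/
theorem form_lower {D S₀ : Finset V} {R T : ℕ} (f : V → ℝ) (hf : ∀ x, 0 ≤ f x)
    (hf0 : ∀ x, x ∉ S₀ → f x = 0)
    (hD : ∀ x ∈ Box (0, 0) (T + 3 * R), ∀ v, dist1 x v ≤ R → v ∈ D) :
    ∑ z ∈ Box (0, 0) T, f z * (2 * avg (Om D) (fun h => chgU R h z)) ≤
      -∑ x ∈ Box (0, 0) (T + 3 * R), avg (Om D) (fun h => psi R h x * ∑ z ∈ S₀, f z * (h z : ℝ)) := by
  have h1 : -∑ x ∈ Box (0, 0) (T + 3 * R), avg (Om D) (fun h => psi R h x * ∑ z ∈ S₀, f z * (h z : ℝ)) =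
      ∑ d ∈ dirs, ∑ l ∈ Icc 1 R, ∑ i ∈ range l, ∑ x ∈ Box (0, 0) (T + 3 * R),
        qt D f (pt x d (-(i : ℤ))) d l := by
    rw [← Finset.sum_neg_distrib, Finset.sum_congr rfl fun x hx => by rw [psi_lin f hf0 (hD x hx), neg_neg],
      Finset.sum_comm]
    refine Finset.sum_congr rfl fun d _ => ?_
    rw [Finset.sum_comm]
    refine Finset.sum_congr rfl fun l _ => ?_
    rw [Finset.sum_comm]
  have h2 : ∀ d ∈ dirs, ∀ l ∈ Icc 1 R, ∀ i ∈ range l, ∑ z ∈ Box (0, 0) T, qt D f z d l ≤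
      ∑ x ∈ Box (0, 0) (T + 3 * R), qt D f (pt x d (-(i : ℤ))) d l := by
    intro d hd l hl i hi
    have hl' := (Finset.mem_Icc.1 hl).2
    have hi' := Finset.mem_range.1 hi
    classical
    have hinj : ∀ z ∈ Box (0, 0) T, ∀ z' ∈ Box (0, 0) T, pt z d (i : ℤ) = pt z' d (i : ℤ) → z = z' := by
      intro z _ z' _ he
      have := congrArg (fun w => pt w d (-(i : ℤ))) he
      simpa only [E2_pt] using this
    have e : ∑ z ∈ Box (0, 0) T, qt D f z d l =
        ∑ x ∈ (Box (0, 0) T).image (fun z => pt z d (i : ℤ)), qt D f (pt x d (-(i : ℤ))) d l := by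
      rw [Finset.sum_image hinj]
      refine Finset.sum_congr rfl fun z _ => ?_
      rw [E2_pt]
    rw [e]
    refine Finset.sum_le_sum_of_subset_of_nonneg ?_ fun x _ _ => qt_nonneg D hf _ _ _
    intro x hx
    obtain ⟨z, hz, rfl⟩ := Finset.mem_image.1 hx
    exact E2_mem hd (by omega) hz
  have h3 : ∑ z ∈ Box (0, 0) T, f z * (2 * avg (Om D) (fun h => chgU R h z)) ≤
      ∑ d ∈ dirs, ∑ l ∈ Icc 1 R, ∑ i ∈ range l, ∑ z ∈ Box (0, 0) T, qt D f z d l := by
    have e1 : ∀ z, avg (Om D) (fun h => chgU R h z) = ∑ d ∈ dirs, ∑ l ∈ Icc 1 R,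
        (l : ℝ) * (2 * rho l * avg (Om D) (fun h => ind (Up h z d l))) := by
      intro z
      unfold chgU avg
      rw [Finset.sum_comm, Finset.sum_div]
      refine Finset.sum_congr rfl fun d _ => ?_
      rw [Finset.sum_comm, Finset.sum_div]
      refine Finset.sum_congr rfl fun l _ => ?_
      rw [← Finset.mul_sum, ← Finset.mul_sum]
      ring
    have e2 : ∑ d ∈ dirs, ∑ l ∈ Icc 1 R, ∑ i ∈ range l, ∑ z ∈ Box (0, 0) T, qt D f z d l =
        ∑ z ∈ Box (0, 0) T, ∑ d ∈ dirs, ∑ l ∈ Icc 1 R, (l : ℝ) * qt D f z d l := by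
      symm
      rw [Finset.sum_comm]
      refine Finset.sum_congr rfl fun d _ => ?_
      rw [Finset.sum_comm]
      refine Finset.sum_congr rfl fun l _ => ?_
      rw [Finset.sum_const, Finset.card_range, nsmul_eq_mul, Finset.mul_sum]
    rw [e2]
    refine Finset.sum_le_sum fun z _ => ?_
    rw [e1, Finset.mul_sum, Finset.mul_sum]
    refine Finset.sum_le_sum fun d _ => ?_
    rw [Finset.mul_sum, Finset.mul_sum]
    refine Finset.sum_le_sum fun l hl => ?_
    have hl' := (Finset.mem_Icc.1 hl).1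
    have h4 : f z ≤ ∑ j ∈ range l, f (pt z d j) := by
      have h5 := Finset.single_le_sum (f := fun j : ℕ => f (pt z d (j : ℤ))) (s := range l)
        (fun j _ => hf _) (Finset.mem_range.2 (by omega : 0 < l))
      have h6 : pt z d ((0 : ℕ) : ℤ) = z := by
        simp [pt]
      simp only [h6] at h5
      exact h5
    have h7 : 0 ≤ avg (Om D) (fun h => ind (Up h z d l)) :=
      div_nonneg (Finset.sum_nonneg fun _ _ => ind_nonneg _) (Nat.cast_nonneg _)
    have h8 := rho_nonneg l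
    have h9 : 0 ≤ (l : ℝ) * (4 * rho l * avg (Om D) (fun h => ind (Up h z d l))) := by positivity
    unfold qt
    nlinarith [mul_le_mul_of_nonneg_left h4 h9]
  rw [h1]
  refine h3.trans (Finset.sum_le_sum fun d hd => Finset.sum_le_sum fun l hl => Finset.sum_le_sum fun i hi => ?_)
  exact h2 d hd l hl i hi

end KD
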