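import Pool.Agent.Helper58.KP.Fin
import Pool.Agent.Helper58.KP.Defs

/-!
The second moment of the Laplacian, uniformly.
-/

open Finset RP4 KP Filter Topology

namespace KD

/-- `lap_eventually` of KP/H.lean for `F = {0}` (`KP.core_pos` gives the limit function `a`), `eventually_dom`, and the translation argument in its proof, for every even `x`. -/
theorem lap3 : ∃ N : ℕ, ∀ D : Finset V, BdryPar D 0 → ∀ x : V, Even (par x) → Box x N ⊆ D →
    3 ≤ avg (Om D) (fun h => (Lap h x : ℝ) ^ 2) := by
  obtain ⟨K, a, -, ha, -⟩ := KP.core_pos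
  obtain ⟨G, hG⟩ := eventually_dom.1 (lap_eventually_zero ha)
  refine ⟨∑ v ∈ G, (v.1.natAbs + v.2.natAbs), fun D hp x hx hD => ?_⟩
  have h1 : G ⊆ img (RP4.trans (-x)) D := by
    intro v hv
    rw [T1_mem_img]
    apply hD
    have h7 : v.1.natAbs + v.2.natAbs ≤ ∑ v ∈ G, (v.1.natAbs + v.2.natAbs) :=
      Finset.single_le_sum (f := fun v : V => v.1.natAbs + v.2.natAbs) (fun _ _ => Nat.zero_le _) hv
    have e : (RP4.trans (-x)).symm v = v + x := by
      simp [RP4.trans]
    rw [e, mem_Box]
    simp only [Prod.fst_add, Prod.snd_add, add_sub_cancel_right]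
    rw [abs_le, abs_le]
    refine ⟨⟨?_, ?_⟩, ?_, ?_⟩ <;> omega
  have h2 : BdryPar (img (RP4.trans (-x)) D) 0 := by
    have h3 : BdryPar D (par x) := by
      intro v hv
      have := hp v hv
      rw [Int.even_iff] at this hx ⊢
      omega
    have h4 := (bdryPar_img (RP4.trans_lsym (-x)) D x).2 h3
    have h0 : RP4.trans (-x) x = (0, 0) := by simp [RP4.trans]; rfl
    rw [h0] at h4
    simpa [par] using h4
  have h5 := hG _ h1 h2
  have he : ∀ v, Even (par (RP4.trans (-x) v) - par v) := by
    intro v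
    unfold par at hx
    simp only [RP4.trans, Equiv.coe_addRight, par, Prod.fst_add, Prod.snd_add, Prod.fst_neg, Prod.snd_neg]
    rw [Int.even_iff] at hx ⊢
    omega
  have h6 := avg_Om_img (RP4.trans_lsym (-x)) he D (fun g => (Lap g x : ℝ) ^ 2)
  rw [← h6]
  refine h5.trans (le_of_eq ?_)
  congr 1
  funext g
  have e : ∀ v : V, RP4.trans (-x) v = (v.1 - x.1, v.2 - x.2) := by
    intro v
    simp [RP4.trans, sub_eq_add_neg]; rfl
  unfold Lap
  simp only [e]
  congr 3 <;> simp

end KD
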