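import Pool.Agent.Helper14.KD.Defs
import Pool.Agent.Helper35.MD.All

/-!
Tails of towers and long runs in every domain.
-/

open Finset RP4 KP

namespace KD

private lemma t_zero {p : Prop} (h : ¬ p) : ind p = 0 := by
  unfold ind
  rw [if_neg h]

private lemma t_one {p : Prop} (h : p) : ind p = 1 := by
  unfold ind
  rw [if_pos h]

/-- Relative patterns: `O` odd interior sites all whose neighbours are in `S`, `m ≤ #O`, `x₀ ∈ S` even.  The event
`h = h x₀ + ρ on S` is the disjoint union over `k` of the patterns `2 k + ρ` (each of probability at most `pr D x₀ 0 / 2 ^ #O` by `MD.patt_bound` and at most `pr D x₀ k`), then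
`MD.min_sum` exactly as in the proof of `MD.PT_le`. -/
theorem rel_patt {D S O : Finset V} (hS : S ⊆ D) (hOS : O ⊆ S)
    (hO : ∀ v ∈ O, v ∈ core D ∧ par v % 2 = 1 ∧ ∀ u, Adj u v → u ∈ S) (ρ : V → ℤ) {x₀ : V} (hx : x₀ ∈ S)
    (hx0 : par x₀ % 2 = 0) {m : ℕ} (hm : m ≤ O.card) :
    avg (Om D) (fun h => ind (∀ v ∈ S, h v = h x₀ + ρ v)) ≤ (4 * (m : ℝ) + 8) / 2 ^ m := by
  classical
  have hx₀D : x₀ ∈ D := hS hx
  have hk : ∀ k : ℤ, avg (Om D) (fun h => ind ((∀ v ∈ S, h v = h x₀ + ρ v) ∧ h x₀ = 2 * k)) ≤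
      min (MD.pr D x₀ 0 / 2 ^ m) (MD.pr D x₀ k) := by
    intro k
    refine le_min ?_ (avg_mono fun h _ => ind_mono fun hu => hu.2)
    have hpr : 0 ≤ MD.pr D x₀ 0 := MD.pr_nonneg D x₀ 0
    calc avg (Om D) (fun h => ind ((∀ v ∈ S, h v = h x₀ + ρ v) ∧ h x₀ = 2 * k))
        ≤ avg (Om D) (fun h => ind (∀ v ∈ S, h v = 2 * k + ρ v)) := by
          refine avg_mono fun h _ => ind_mono ?_
          rintro ⟨hu, hu2⟩ v hv
          rw [hu v hv, hu2]
      _ ≤ avg (Om D) (fun h => ind (h x₀ = 0)) / 2 ^ O.card := MD.patt_bound hS hOS hO _ hx hx0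
      _ = MD.pr D x₀ 0 / 2 ^ O.card := by
          unfold MD.pr
          rw [mul_zero]
      _ ≤ MD.pr D x₀ 0 / 2 ^ m := by
          apply div_le_div_of_nonneg_left hpr (by positivity)
          exact pow_le_pow_right₀ (by norm_num) hm
  have hsum : avg (Om D) (fun h => ind (∀ v ∈ S, h v = h x₀ + ρ v)) ≤
      ∑ k ∈ Icc (-(D.card : ℤ)) D.card, avg (Om D) (fun h => ind ((∀ v ∈ S, h v = h x₀ + ρ v) ∧ h x₀ = 2 * k)) := by
    have hex : ∑ k ∈ Icc (-(D.card : ℤ)) D.card, avg (Om D) (fun h => ind ((∀ v ∈ S, h v = h x₀ + ρ v) ∧ h x₀ = 2 * k)) =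
        avg (Om D) (fun h => ∑ k ∈ Icc (-(D.card : ℤ)) D.card, ind ((∀ v ∈ S, h v = h x₀ + ρ v) ∧ h x₀ = 2 * k)) := by
      unfold avg
      rw [Finset.sum_comm, Finset.sum_div]
    rw [hex]
    refine avg_mono fun h hh => ?_
    by_cases hu : ∀ v ∈ S, h v = h x₀ + ρ v
    · rw [t_one hu]
      have hm := mem_Om.1 hh
      have hpar := hm.1.par x₀ hx₀D
      rw [Int.even_iff] at hpar
      obtain ⟨b, hb, hbv⟩ := hm.1.bound_bdry hx₀D
      rw [hm.2 b hb, sub_zero, abs_le] at hbv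
      have hmem : h x₀ / 2 ∈ Icc (-(D.card : ℤ)) D.card := by
        rw [mem_Icc]
        omega
      have h1 : ind ((∀ v ∈ S, h v = h x₀ + ρ v) ∧ h x₀ = 2 * (h x₀ / 2)) = 1 := by
        apply t_one
        refine ⟨hu, ?_⟩
        omega
      rw [← h1]
      exact Finset.single_le_sum (f := fun k : ℤ => ind ((∀ v ∈ S, h v = h x₀ + ρ v) ∧ h x₀ = 2 * k))
        (fun _ _ => ind_nonneg _) hmem
    · rw [t_zero hu]
      exact Finset.sum_nonneg fun _ _ => ind_nonneg _
  calc _ ≤ _ := hsum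
    _ ≤ ∑ k ∈ Icc (-(D.card : ℤ)) D.card, min (MD.pr D x₀ 0 / 2 ^ m) (MD.pr D x₀ k) :=
        Finset.sum_le_sum fun k _ => hk k
    _ ≤ (4 * (m : ℝ) + 8) / 2 ^ m :=
        MD.min_sum (MD.pr D x₀) (MD.pr_nonneg D x₀) (MD.pr_neg D x₀) (MD.pr_one D x₀ hx0) (fun a b => MD.pr_add D x₀ a b)
          D.card (MD.pr_sum D x₀ D.card) m

/-- `(4 (l/2) + 8) / 2 ^ (l/2) ≤ C / (l+1)^16`. -/
theorem tl_poly : ∃ C : ℝ, 0 ≤ C ∧ ∀ l : ℕ, MD.tl l ≤ C / ((l : ℝ) + 1) ^ 16 := by
  obtain ⟨c, hc⟩ := (tendsto_pow_const_div_const_pow_of_one_lt 17 (one_lt_two (α := ℝ))).bddAbove_range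
  have hc' : ∀ k : ℕ, (k : ℝ) ^ 17 / 2 ^ k ≤ c := fun k => hc ⟨k, rfl⟩
  have hc0 : 0 ≤ c := by
    have := hc' 0
    simpa using this
  refine ⟨2 ^ 20 * c, by positivity, fun l => ?_⟩
  obtain ⟨m, hm⟩ : ∃ m : ℕ, l = 2 * m ∨ l = 2 * m + 1 := ⟨l / 2, by omega⟩
  have hl2 : l / 2 = m := by omega
  have hl : (l : ℝ) + 1 ≤ 2 * ((m : ℝ) + 1) := by
    rcases hm with rfl | rfl <;> push_cast <;> linarith
  have hm0 : (0 : ℝ) ≤ m := Nat.cast_nonneg m
  have h7 := hc' (m + 1)
  rw [div_le_iff₀ (by positivity)] at h7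
  push_cast at h7
  unfold MD.tl
  rw [hl2, div_le_div_iff₀ (by positivity) (by positivity)]
  calc (4 * (m : ℝ) + 8) * ((l : ℝ) + 1) ^ 16 ≤ (8 * ((m : ℝ) + 1)) * (2 * ((m : ℝ) + 1)) ^ 16 := by
        refine mul_le_mul (by linarith) (pow_le_pow_left₀ (by positivity) hl 16) (by positivity) (by positivity)
    _ = 2 ^ 19 * ((m : ℝ) + 1) ^ 17 := by ring
    _ ≤ 2 ^ 19 * (c * 2 ^ (m + 1)) := mul_le_mul_of_nonneg_left h7 (by positivity)
    _ = 2 ^ 20 * c * 2 ^ m := by ring

/-- the neighbours of a point of a line -/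
private lemma t_nbr {d : V} (hd : d ∈ dirs) {x v : V} {i : ℤ} (ha : Adj v (pt x d i)) :
    v = pt x d (i + 1) ∨ v = pt x d (i - 1) ∨ v = pt (pt x d i) (prp d) 1 ∨ v = pt (pt x d i) (prp d) (-1) := by
  obtain ⟨a, b⟩ := x
  obtain ⟨p, q⟩ := v
  have h1 : |p - (a + i * d.1)| + |q - (b + i * d.2)| = 1 := ha
  simp only [pt, prp, Prod.mk.injEq]
  rcases mem_dirs.1 hd with rfl | rfl | rfl | rfl <;> simp only at h1 ⊢ <;>
  · rcases abs_cases (p - (a + i * _)) with ⟨h2, h3⟩ | ⟨h2, h3⟩ <;>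
      rcases abs_cases (q - (b + i * _)) with ⟨h4, h5⟩ | ⟨h4, h5⟩ <;>
      rw [h2, h4] at h1 <;> omega

/-- the heights of a long run are determined by the height of the first site -/
private lemma t_det {d : V} (hd : d ∈ dirs) {x : V} {R : ℕ} {g h : V → ℤ} (hg : Lg g x d R) (hh : Lg h x d R)
    {v : V} {i : ℤ} (h0 : 0 ≤ i) (hl : i < R) (hv : v = pt x d i ∨ Adj v (pt x d i)) :
    h v - h x = g v - g x := by
  obtain ⟨g1, g2, g3⟩ := hg
  obtain ⟨h1, h2, h3⟩ := hh
  obtain ⟨a1, a2, a3⟩ := g1 i h0 hl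
  obtain ⟨b1, b2, b3⟩ := h1 i h0 hl
  rcases hv with rfl | ha
  · rw [a1, b1]
    ring
  · rcases t_nbr hd ha with rfl | rfl | rfl | rfl
    · rcases lt_or_ge (i + 1) (R : ℤ) with h4 | h4
      · rw [(g1 (i + 1) (by omega) h4).1, (h1 (i + 1) (by omega) h4).1]
        ring
      · have e : i + 1 = R := by omega
        rw [e, g3, h3]
        ring
    · rcases lt_or_ge (i - 1) 0 with h4 | h4
      · have e : i - 1 = -1 := by omega
        rw [e, g2, h2]
        ring
      · rw [(g1 (i - 1) h4 (by omega)).1, (h1 (i - 1) h4 (by omega)).1]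
        ring
    · rw [a2, b2]
      ring
    · rw [a3, b3]
      ring

private lemma t_par {d : V} (hd : d ∈ dirs) (x : V) (i : ℤ) : (par (pt x d i) - par x - i) % 2 = 0 := by
  unfold par pt
  rcases mem_dirs.1 hd with rfl | rfl | rfl | rfl <;> simp only <;> omega

private lemma t_inj {d : V} (hd : d ∈ dirs) (x : V) {i j : ℤ} (h : pt x d i = pt x d j) : i = j := by
  unfold pt at h
  rw [Prod.mk.injEq] at h
  rcases mem_dirs.1 hd with rfl | rfl | rfl | rfl <;> simp only at h <;> omega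

/-- the sites of a segment near `S` are interior -/
private lemma t_core {D S : Finset V} {R : ℕ} (hR : Deep D S (R + 2)) {x : V} (hx : x ∈ S) {d : V} (hd : d ∈ dirs)
    {i : ℤ} (h0 : 0 ≤ i) (hi : i < R) : pt x d i ∈ core D := by
  have key : ∀ v : V, |v.1 - x.1| + |v.2 - x.2| ≤ R + 1 → v ∈ D := by
    intro v hv
    refine hR x hx v ?_
    unfold dist1
    rw [abs_sub_comm x.1, abs_sub_comm x.2]
    linarith
  have h1 : |(pt x d i).1 - x.1| + |(pt x d i).2 - x.2| ≤ i := by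
    unfold pt
    rcases mem_dirs.1 hd with rfl | rfl | rfl | rfl <;> simp only
    · have e : x.1 + i * 1 - x.1 = i := by ring
      have e2 : x.2 + i * 0 - x.2 = 0 := by ring
      rw [e, e2, abs_of_nonneg h0, abs_zero, add_zero]
    · have e : x.1 + i * -1 - x.1 = -i := by ring
      have e2 : x.2 + i * 0 - x.2 = 0 := by ring
      rw [e, e2, abs_neg, abs_of_nonneg h0, abs_zero, add_zero]
    · have e : x.1 + i * 0 - x.1 = 0 := by ring
      have e2 : x.2 + i * 1 - x.2 = i := by ring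
      rw [e, e2, abs_of_nonneg h0, abs_zero, zero_add]
    · have e : x.1 + i * 0 - x.1 = 0 := by ring
      have e2 : x.2 + i * -1 - x.2 = -i := by ring
      rw [e, e2, abs_neg, abs_of_nonneg h0, abs_zero, zero_add]
  rw [core, mem_sdiff]
  refine ⟨key _ (by linarith), fun hb => ?_⟩
  obtain ⟨_, u, hu, huD⟩ := mem_bdry.1 hb
  refine huD (key u ?_)
  have hu' : |u.1 - (pt x d i).1| + |u.2 - (pt x d i).2| = 1 := hu
  have t1 := abs_add_le (u.1 - (pt x d i).1) ((pt x d i).1 - x.1)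
  have t2 := abs_add_le (u.2 - (pt x d i).2) ((pt x d i).2 - x.2)
  rw [sub_add_sub_cancel] at t1 t2
  linarith

/-- `TailU`: `MD.PT_le` (the segment is in the interior since the ball of radius `R + 2` about `x` is in `D`) and `tl_poly`.  `LongT`: `Lg h x d R` is a relative pattern on the set of the
`R` sites of the run and all their neighbours (`rel_patt` with `m = R / 2`, `x₀ = x` or `pt x d (-1)`, whichever is even). -/
theorem tails : ∃ C : ℝ, 0 ≤ C ∧ ∀ (D S : Finset V) (R : ℕ), 1 ≤ R → Deep D S (R + 2) →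
    TailU D S R C ∧ LongT D S R C := by
  classical
  obtain ⟨C, hC0, hC⟩ := tl_poly
  refine ⟨C, hC0, fun D S R hR1 hR => ⟨?_, ?_⟩⟩
  · intro x hx d hd l hl1 hlR
    have hI : MD.InD D x d l := fun i h0 hi => t_core hR hx hd h0 (by omega)
    have h1 : avg (Om D) (fun h => ind (Up h x d l)) ≤ MD.PT D x d l :=
      avg_mono fun h _ => ind_mono fun hu => ⟨hI, hu⟩
    refine h1.trans ((MD.PT_le D x d hd l).trans ((hC l).trans ?_))
    have hl : (1 : ℝ) ≤ l := by exact_mod_cast hl1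
    apply div_le_div_of_nonneg_left hC0 (by positivity)
    exact pow_le_pow_left₀ (by linarith) (by linarith) 16
  · intro x hx d hd
    by_cases hex : ∃ g : V → ℤ, Lg g x d R
    swap
    · have : avg (Om D) (fun h => ind (Lg h x d R)) = 0 := by
        unfold avg
        rw [Finset.sum_eq_zero, zero_div]
        intro g _
        apply t_zero
        exact fun h => hex ⟨g, h⟩
      rw [this]
      positivity
    obtain ⟨g, hg⟩ := hex
    set S' : Finset V := D.filter (fun v => ∃ i : ℤ, 0 ≤ i ∧ i < R ∧ (v = pt x d i ∨ Adj v (pt x d i))) with hS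
    set O : Finset V := D.filter (fun v => par v % 2 = 1 ∧ ∃ i : ℤ, 0 ≤ i ∧ i < R ∧ v = pt x d i) with hO
    have hI : ∀ i : ℤ, 0 ≤ i → i < R → pt x d i ∈ core D := fun i h0 hi => t_core hR hx hd h0 hi
    have hxD : ∀ i : ℤ, 0 ≤ i → i < R → pt x d i ∈ D := fun i h0 hl => by
      have := hI i h0 hl
      rw [core, mem_sdiff] at this
      exact this.1
    have hSD : S' ⊆ D := Finset.filter_subset _ _
    have hOS : O ⊆ S' := by
      intro v hv
      rw [hO, mem_filter] at hv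
      obtain ⟨h1, h2, i, h0, hl, hvi⟩ := hv
      rw [hS, mem_filter]
      exact ⟨h1, i, h0, hl, Or.inl hvi⟩
    have hOp : ∀ v ∈ O, v ∈ core D ∧ par v % 2 = 1 ∧ ∀ u, Adj u v → u ∈ S' := by
      intro v hv
      rw [hO, mem_filter] at hv
      obtain ⟨h1, h2, i, h0, hl, rfl⟩ := hv
      refine ⟨hI i h0 hl, h2, fun u hu => ?_⟩
      rw [hS, mem_filter]
      exact ⟨MD.nbr_core (hI i h0 hl) hu, i, h0, hl, Or.inr hu⟩
    have hOc : R / 2 ≤ O.card := by
      obtain ⟨e, he0, he1, hep⟩ : ∃ e : ℤ, 0 ≤ e ∧ e ≤ 1 ∧ (par x + e) % 2 = 1 := by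
        rcases Int.emod_two_eq_zero_or_one (par x) with h | h
        · exact ⟨1, by norm_num, by norm_num, by omega⟩
        · exact ⟨0, by norm_num, by norm_num, by omega⟩
      have h1 : ((range (R / 2)).image (fun j : ℕ => pt x d (2 * j + e))).card = R / 2 := by
        rw [Finset.card_image_of_injective, card_range]
        intro a b hab
        have := t_inj hd x hab
        omega
      rw [← h1]
      apply Finset.card_le_card
      intro v hv
      rw [mem_image] at hv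
      obtain ⟨j, hj, rfl⟩ := hv
      rw [mem_range] at hj
      rw [hO, mem_filter]
      have h2 : (0 : ℤ) ≤ 2 * j + e := by omega
      have h3 : (2 * j + e : ℤ) < R := by omega
      refine ⟨hxD _ h2 h3, ?_, _, h2, h3, rfl⟩
      have := t_par hd x (2 * j + e)
      omega
    obtain ⟨x₀, hx₀S, hx₀p⟩ : ∃ x₀ : V, x₀ ∈ S' ∧ par x₀ % 2 = 0 := by
      have hlz : (0 : ℤ) < R := by exact_mod_cast hR1
      have hp0 : pt x d 0 = x := by simp [pt]
      rcases Int.emod_two_eq_zero_or_one (par x) with h | h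
      · refine ⟨x, ?_, h⟩
        rw [hS, mem_filter]
        refine ⟨?_, 0, le_rfl, hlz, Or.inl hp0.symm⟩
        have := hxD 0 le_rfl hlz
        rwa [hp0] at this
      · have ha : Adj (pt x d (-1)) (pt x d 0) := by
          rcases mem_dirs.1 hd with rfl | rfl | rfl | rfl <;> simp [Adj, pt]
        refine ⟨pt x d (-1), ?_, ?_⟩
        · rw [hS, mem_filter]
          exact ⟨MD.nbr_core (hI 0 le_rfl hlz) ha, 0, le_rfl, hlz, Or.inr ha⟩
        · have := t_par hd x (-1)
          omega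
    have h1 := rel_patt hSD hOS hOp (fun v => g v - g x₀) hx₀S hx₀p hOc
    have h2 : avg (Om D) (fun h => ind (Lg h x d R)) ≤
        avg (Om D) (fun h => ind (∀ v ∈ S', h v = h x₀ + (g v - g x₀))) := by
      refine avg_mono fun h _ => ind_mono fun hh v hv => ?_
      have k1 : ∀ u ∈ S', h u - h x = g u - g x := by
        intro u hu
        rw [hS, mem_filter] at hu
        obtain ⟨_, i, h0, hl, hvi⟩ := hu
        exact t_det hd hg hh h0 hl hvi
      have k2 := k1 v hv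
      have k3 := k1 x₀ hx₀S
      omega
    refine h2.trans (h1.trans ?_)
    exact hC R

end KD
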