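import Pool.Agent.Helper14.KD.M1
import Pool.Agent.Helper14.KD.T
import Pool.Agent.Helper14.KD.L

/-!
The lower bound with `m` scales.
-/

open Finset RP4 KP

namespace KD

/-- the even sites of the square -/
noncomputable def ev (s : ℕ) : Finset V := (Box (0, 0) s).filter (fun z => Even (par z))

lemma sq_sum_le {m : ℕ} (Sg : Finset (V → ℤ)) (P : ℕ → (V → ℤ) → ℝ) {a ε : ℝ}
    (h1 : ∀ i ∈ range m, avg Sg (fun h => P i h ^ 2) ≤ a + ε)
    (h2 : ∀ i ∈ range m, ∀ j ∈ range m, i ≠ j → avg Sg (fun h => P i h * P j h) ≤ ε) :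
    avg Sg (fun h => (∑ i ∈ range m, P i h) ^ 2) ≤ m * a + m * (m * ε) := by
  have e1 : avg Sg (fun h => (∑ i ∈ range m, P i h) ^ 2) =
      ∑ i ∈ range m, ∑ j ∈ range m, avg Sg (fun h => P i h * P j h) := by
    unfold avg
    have e2 : ∑ h ∈ Sg, (∑ i ∈ range m, P i h) ^ 2 = ∑ i ∈ range m, ∑ j ∈ range m, ∑ h ∈ Sg, P i h * P j h := by
      have e3 : ∑ h ∈ Sg, (∑ i ∈ range m, P i h) ^ 2 = ∑ h ∈ Sg, ∑ i ∈ range m, ∑ j ∈ range m, P i h * P j h := by
        refine Finset.sum_congr rfl fun h _ => ?_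
        rw [pow_two, Finset.sum_mul_sum]
      rw [e3, Finset.sum_comm]
      refine Finset.sum_congr rfl fun i _ => ?_
      rw [Finset.sum_comm]
    rw [e2, Finset.sum_div]
    refine Finset.sum_congr rfl fun i _ => ?_
    rw [Finset.sum_div]
  rw [e1]
  have h3 : ∀ i ∈ range m, ∑ j ∈ range m, avg Sg (fun h => P i h * P j h) ≤ a + m * ε := by
    intro i hi
    rw [← Finset.add_sum_erase _ _ hi]
    have h4 : avg Sg (fun h => P i h * P i h) ≤ a + ε := by
      have := h1 i hi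
      simp only [pow_two] at this
      exact this
    have h5 : ∑ j ∈ (range m).erase i, avg Sg (fun h => P i h * P j h) ≤
        ((range m).erase i).card • ε := by
      refine Finset.sum_le_card_nsmul _ _ _ fun j hj => ?_
      rw [Finset.mem_erase] at hj
      exact h2 i hi j hj.2 (Ne.symm hj.1)
    rw [Finset.card_erase_of_mem hi, Finset.card_range, nsmul_eq_mul] at h5
    have hm : 1 ≤ m := by
      have := Finset.mem_range.1 hi
      omega
    rw [Nat.cast_sub hm] at h5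
    push_cast at h5
    linarith
  refine (Finset.sum_le_sum h3).trans (le_of_eq ?_)
  rw [Finset.sum_const, Finset.card_range, nsmul_eq_mul]
  ring

/-- the square of the sum of all scales -/
theorem Ps_total {D S : Finset V} {R s m : ℕ} {C : ℝ} (hR : 1 ≤ R) (hRs : 10 * R ≤ s) (hRs' : s ≤ 20 * R)
    (hC : 0 ≤ C) (hT : TailU D S R C) (hL : LongT D S R C)
    (hD : Deep D (Box (0, 0) (2 * (4 ^ m * s) + 3 * R)) (8 * R + 8))
    (hS : Deep S (Box (0, 0) (2 * (4 ^ m * s) + 3 * R)) (8 * R + 8))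
    (hbig : 250880000 * m * 16 ^ m ≤ R) :
    avg (Om D) (fun h => (∑ j ∈ range m, Ps R (2 * (4 ^ m * s) + 3 * R) (4 ^ (j + 1) * s) h) ^ 2) ≤
      m * (300000001 * C) := by
  set N : ℕ := 2 * (4 ^ m * s) + 3 * R with hN
  set ε : ℝ := 25 * ((4 : ℝ) ^ m * s) ^ 2 * (25088 * C / ((R : ℝ) + 1) ^ 6) with hε
  have hs : 1 ≤ s := by omega
  have hR1 : (1 : ℝ) ≤ R := by exact_mod_cast hR
  have hsR : (10 : ℝ) * R ≤ s := by exact_mod_cast hRs
  have hsR' : (s : ℝ) ≤ 20 * R := by exact_mod_cast hRs'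
  have hpow : ∀ j ∈ range m, 4 ^ (j + 1) ≤ 4 ^ m := fun j hj =>
    Nat.pow_le_pow_right (by norm_num) (by have := Finset.mem_range.1 hj; omega)
  have hLj : ∀ j ∈ range m, 4 ^ (j + 1) * s ≤ 4 ^ m * s := fun j hj => Nat.mul_le_mul_right _ (hpow j hj)
  have hLpos : ∀ j : ℕ, 4 * s ≤ 4 ^ (j + 1) * s := by
    intro j
    refine Nat.mul_le_mul_right _ ?_
    calc 4 = 4 ^ 1 := by norm_num
      _ ≤ 4 ^ (j + 1) := Nat.pow_le_pow_right (by norm_num) (by omega)
  have hE0 : 0 ≤ 25088 * C / ((R : ℝ) + 1) ^ 6 := by positivity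
  have hreal : ∀ j ∈ range m, ((4 ^ (j + 1) * s : ℕ) : ℝ) ≤ (4 : ℝ) ^ m * s := by
    intro j hj
    have := hLj j hj
    have h2 : ((4 ^ (j + 1) * s : ℕ) : ℝ) ≤ ((4 ^ m * s : ℕ) : ℝ) := by exact_mod_cast this
    refine h2.trans (le_of_eq ?_)
    push_cast
    ring
  have hreal4 : ∀ j : ℕ, 4 * (s : ℝ) ≤ ((4 ^ (j + 1) * s : ℕ) : ℝ) := by
    intro j
    have := hLpos j
    exact_mod_cast this
  have hdiag : ∀ i ∈ range m, avg (Om D) (fun h => Ps R N (4 ^ (i + 1) * s) h ^ 2) ≤ 300000000 * C + ε := by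
    intro i hi
    have h1 := Ps_sq (N := N) (L := 4 ^ (i + 1) * s) hR hC hT hL hD hS (by have := hLpos i; omega)
      (by have := hLj i hi; omega)
    refine h1.trans ?_
    set L : ℝ := ((4 ^ (i + 1) * s : ℕ) : ℝ) with hLdef
    have h2 := hreal i hi
    have h3 := hreal4 i
    have hL0 : 0 < L := by linarith
    have h4 : (2 * (2 * L + 3 * (R : ℝ)) + 1) ≤ 5 * L := by linarith
    have h5 : (2 * (2 * L + 3 * (R : ℝ)) + 1) ^ 2 ≤ 25 * L ^ 2 := by
      have := pow_le_pow_left₀ (by positivity) h4 2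
      nlinarith
    have h6 : (12000000 * C * (1 / L) ^ 2 + 25088 * C / ((R : ℝ) + 1) ^ 6) * (2 * (2 * L + 3 * (R : ℝ)) + 1) ^ 2 ≤
        (12000000 * C * (1 / L) ^ 2 + 25088 * C / ((R : ℝ) + 1) ^ 6) * (25 * L ^ 2) :=
      mul_le_mul_of_nonneg_left h5 (by positivity)
    refine h6.trans ?_
    rw [add_mul]
    have h7 : 12000000 * C * (1 / L) ^ 2 * (25 * L ^ 2) = 300000000 * C := by
      field_simp
      ring
    have h8 : L ^ 2 ≤ ((4 : ℝ) ^ m * s) ^ 2 := pow_le_pow_left₀ hL0.le h2 2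
    have h9 : 25088 * C / ((R : ℝ) + 1) ^ 6 * (25 * L ^ 2) ≤ ε := by
      rw [hε]
      nlinarith [mul_le_mul_of_nonneg_left h8 hE0]
    rw [h7]
    linarith
  have hoff' : ∀ i ∈ range m, ∀ j ∈ range m, i < j →
      avg (Om D) (fun h => Ps R N (4 ^ (i + 1) * s) h * Ps R N (4 ^ (j + 1) * s) h) ≤ ε := by
    intro i hi j hj hij
    have hstep : 4 * (4 ^ (i + 1) * s) ≤ 4 ^ (j + 1) * s := by
      have : 4 * 4 ^ (i + 1) ≤ 4 ^ (j + 1) := by
        calc 4 * 4 ^ (i + 1) = 4 ^ (i + 2) := by ring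
          _ ≤ 4 ^ (j + 1) := Nat.pow_le_pow_right (by norm_num) (by omega)
      calc 4 * (4 ^ (i + 1) * s) = (4 * 4 ^ (i + 1)) * s := by ring
        _ ≤ 4 ^ (j + 1) * s := Nat.mul_le_mul_right _ this
    have h1 := Ps_mixed (N := N) (L := 4 ^ (i + 1) * s) (L' := 4 ^ (j + 1) * s) hR hC hT hL hD hS
      (by have := hLpos i; omega) (by have := hLpos i; omega) (by have := hLj j hj; omega)
    refine (le_abs_self _).trans (h1.trans ?_)
    have h2 := hreal i hi
    have h3 := hreal4 i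
    rw [hε]
    refine mul_le_mul_of_nonneg_right ?_ hE0
    set L : ℝ := ((4 ^ (i + 1) * s : ℕ) : ℝ) with hLdef
    have hL0 : 0 < L := by linarith
    have h4 : 4 * L + 1 ≤ 5 * ((4 : ℝ) ^ m * s) := by linarith
    have h5 := pow_le_pow_left₀ (by positivity) h4 2
    nlinarith
  have hoff : ∀ i ∈ range m, ∀ j ∈ range m, i ≠ j →
      avg (Om D) (fun h => Ps R N (4 ^ (i + 1) * s) h * Ps R N (4 ^ (j + 1) * s) h) ≤ ε := by
    intro i hi j hj hij
    rcases lt_or_gt_of_ne hij with h | h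
    · exact hoff' i hi j hj h
    · have h1 := hoff' j hj i hi h
      have e : (fun g => Ps R N (4 ^ (i + 1) * s) g * Ps R N (4 ^ (j + 1) * s) g) =
          fun g => Ps R N (4 ^ (j + 1) * s) g * Ps R N (4 ^ (i + 1) * s) g := by
        funext g
        exact mul_comm _ _
      rw [e]
      exact h1
  have h1 := sq_sum_le (Om D) (fun j h => Ps R N (4 ^ (j + 1) * s) h) hdiag hoff
  refine h1.trans ?_
  have hmε : m * ε ≤ C := by
    have hb : (250880000 : ℝ) * m * 16 ^ m ≤ R := by exact_mod_cast hbig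
    have h2 : (s : ℝ) ^ 2 ≤ 400 * (R : ℝ) ^ 2 := by
      have := pow_le_pow_left₀ (Nat.cast_nonneg s) hsR' 2
      nlinarith
    have h3 : ((4 : ℝ) ^ m * s) ^ 2 = 16 ^ m * (s : ℝ) ^ 2 := by
      rw [mul_pow, ← pow_mul, mul_comm m 2, pow_mul]
      norm_num
    have h4 : m * ε = (m * 16 ^ m * (s : ℝ) ^ 2 * 627200) * C / ((R : ℝ) + 1) ^ 6 := by
      rw [hε, h3]
      ring
    rw [h4, div_le_iff₀ (by positivity), mul_comm C]
    refine mul_le_mul_of_nonneg_right ?_ hC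
    have h5 : (m : ℝ) * 16 ^ m * (s : ℝ) ^ 2 * 627200 ≤ (250880000 * m * 16 ^ m) * (R : ℝ) ^ 2 := by
      have h6 : 0 ≤ (m : ℝ) * 16 ^ m := by positivity
      nlinarith [mul_le_mul_of_nonneg_left h2 h6]
    refine h5.trans ?_
    have h7 : (250880000 * (m : ℝ) * 16 ^ m) * (R : ℝ) ^ 2 ≤ R * (R : ℝ) ^ 2 :=
      mul_le_mul_of_nonneg_right hb (by positivity)
    refine h7.trans ?_
    have h8 : (R : ℝ) * (R : ℝ) ^ 2 ≤ ((R : ℝ) + 1) ^ 3 := by
      have : (R : ℝ) * (R : ℝ) ^ 2 = (R : ℝ) ^ 3 := by ring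
      rw [this]
      exact pow_le_pow_left₀ (by positivity) (by linarith) 3
    exact h8.trans (pow_le_pow_right₀ (by linarith) (by norm_num))
  have hm0 : (0 : ℝ) ≤ m := Nat.cast_nonneg m
  nlinarith [mul_le_mul_of_nonneg_left hmε hm0]

/-- the form of the sum of all scales against the sum over the even sites -/
theorem form_total {D S : Finset V} {R s m : ℕ} {C : ℝ} (hR : 1 ≤ R) (hRs : 10 * R ≤ s)
    (hCR : 64 * C ≤ R) (hL : LongT D S R C)
    (hD : Deep D (Box (0, 0) (2 * (4 ^ m * s) + 3 * R)) (8 * R + 8))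
    (hS : Deep S (Box (0, 0) (2 * (4 ^ m * s) + 3 * R)) (8 * R + 8))
    (hlap : ∀ x ∈ ev s, 3 ≤ avg (Om D) (fun h => (Lap h x : ℝ) ^ 2)) :
    (m : ℝ) * (((ev s).card : ℝ) / 2) ≤
      -avg (Om D) (fun h => (∑ j ∈ range m, Ps R (2 * (4 ^ m * s) + 3 * R) (4 ^ (j + 1) * s) h) *
        ∑ z ∈ ev s, (h z : ℝ)) := by
  classical
  set N : ℕ := 2 * (4 ^ m * s) + 3 * R with hN
  set f : V → ℝ := fun z => if z ∈ ev s then 1 else 0 with hf
  have hs : 1 ≤ s := by omega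
  have hX : ∀ h : V → ℤ, ∑ z ∈ ev s, (h z : ℝ) = ∑ z ∈ ev s, f z * (h z : ℝ) := by
    intro h
    refine Finset.sum_congr rfl fun z hz => ?_
    rw [hf]
    simp only [if_pos hz, one_mul]
  have hf0 : ∀ x, x ∉ ev s → f x = 0 := fun x hx => by
    rw [hf]
    simp only [if_neg hx]
  have hfn : ∀ x, 0 ≤ f x := fun x => by
    rw [hf]
    simp only
    split_ifs <;> norm_num
  have hfT : ∀ x, x ∉ Box (0, 0) s → f x = 0 := fun x hx => hf0 x fun h => hx (Finset.mem_filter.1 h).1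
  have hDR : ∀ x ∈ Box (0, 0) N, ∀ v, dist1 x v ≤ R → v ∈ D := fun x hx v hv => hD x hx v (by
    have : (0 : ℤ) ≤ R := Int.natCast_nonneg R
    linarith)
  have hNs : s + 3 * R ≤ N := by
    have : 1 * s ≤ 4 ^ m * s := Nat.mul_le_mul_right _ (Nat.one_le_pow _ _ (by norm_num))
    omega
  simp only [hX]
  have hsum : avg (Om D) (fun h => (∑ j ∈ range m, Ps R N (4 ^ (j + 1) * s) h) * ∑ z ∈ ev s, f z * (h z : ℝ)) =
      m * ∑ x ∈ Box (0, 0) (s + 3 * R), avg (Om D) (fun h => psi R h x * ∑ z ∈ ev s, f z * (h z : ℝ)) := by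
    have h1 := avg_mul_sum (Om D) (range m) (fun _ => (1 : ℝ)) (fun j h => Ps R N (4 ^ (j + 1) * s) h)
      (fun h => ∑ z ∈ ev s, f z * (h z : ℝ))
    simp only [one_mul] at h1
    rw [h1]
    have h2 : ∀ j ∈ range m, avg (Om D) (fun h => Ps R N (4 ^ (j + 1) * s) h * ∑ z ∈ ev s, f z * (h z : ℝ)) =
        ∑ x ∈ Box (0, 0) (s + 3 * R), avg (Om D) (fun h => psi R h x * ∑ z ∈ ev s, f z * (h z : ℝ)) := by
      intro j hj
      have hjm := Finset.mem_range.1 hj
      have hp : 4 * s ≤ 4 ^ (j + 1) * s := by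
        refine Nat.mul_le_mul_right _ ?_
        calc 4 = 4 ^ 1 := by norm_num
          _ ≤ 4 ^ (j + 1) := Nat.pow_le_pow_right (by norm_num) (by omega)
      have hp2 : 4 ^ (j + 1) * s ≤ 4 ^ m * s :=
        Nat.mul_le_mul_right _ (Nat.pow_le_pow_right (by norm_num) (by omega))
      exact Ps_form f hf0 hfT hDR (by omega) (by omega) (by omega)
    rw [Finset.sum_congr rfl h2, Finset.sum_const, Finset.card_range, nsmul_eq_mul]
  rw [hsum]
  have h3 := form_lower (R := R) (T := s) f hfn hf0 (fun x hx v hv => hDR x (box_mono hNs hx) v hv)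
  have h4 : ((ev s).card : ℝ) / 2 ≤ ∑ z ∈ Box (0, 0) s, f z * (2 * avg (Om D) (fun h => chgU R h z)) := by
    have h5 : ∑ z ∈ Box (0, 0) s, f z * (2 * avg (Om D) (fun h => chgU R h z)) =
        ∑ z ∈ ev s, (2 * avg (Om D) (fun h => chgU R h z)) := by
      unfold ev
      rw [Finset.sum_filter]
      refine Finset.sum_congr rfl fun z hz => ?_
      rw [hf]
      simp only [ev, Finset.mem_filter]
      by_cases hp : Even (par z)
      · rw [if_pos ⟨hz, hp⟩, if_pos hp, one_mul]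
      · rw [if_neg fun h => hp h.2, if_neg hp, zero_mul]
    rw [h5]
    have h6 : ∀ z ∈ ev s, (1 : ℝ) / 2 ≤ 2 * avg (Om D) (fun h => chgU R h z) := by
      intro z hz
      have hzB : z ∈ Box (0, 0) N := box_mono (by omega) (Finset.mem_filter.1 hz).1
      have hzS : z ∈ S := hS z hzB z (by
        unfold dist1
        simp only [sub_self, abs_zero, add_zero]
        positivity)
      have h7 := chgU_lower hR hL hzS (fun v hv => hD z hzB v (by
        have : (0 : ℤ) ≤ R := Int.natCast_nonneg R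
        linarith))
      have h8 := hlap z hz
      have h9 : 8 * C / ((R : ℝ) + 1) ^ 16 ≤ 1 / 8 := by
        rw [div_le_iff₀ (by positivity)]
        have h10 : (R : ℝ) + 1 ≤ ((R : ℝ) + 1) ^ 16 := le_self_pow₀ (by linarith [Nat.cast_nonneg (α := ℝ) R]) (by norm_num)
        linarith
      linarith
    have h11 := Finset.card_nsmul_le_sum _ _ _ h6
    rw [nsmul_eq_mul] at h11
    linarith
  have hm0 : (0 : ℝ) ≤ m := Nat.cast_nonneg m
  calc (m : ℝ) * (((ev s).card : ℝ) / 2) ≤ m * (-∑ x ∈ Box (0, 0) (s + 3 * R),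
        avg (Om D) (fun h => psi R h x * ∑ z ∈ ev s, f z * (h z : ℝ))) :=
        mul_le_mul_of_nonneg_left (h4.trans h3) hm0
    _ = _ := by ring

/-- KPD.  Cut offs `χ_j`, `j < m`, with `χ_j = 1` on the square of radius `L_j = 4 ^ (j + 1) s` and `0` off the square of radius `2 L_j`, Lipschitz constant `1 / L_j`; towers of length at most
`R = s / 10`.  `E (∑_j Ψ_j)^2 ≤ C m` for `s ≥ s₀(m)` (`quad_upper` for the squares; for `i < j` the mixed term is at most `card (Box 2 L_i) * row_bound`), the form of `Ψ_j` with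
`X = ∑_{ev s} h` does not depend on `j` and is at most `- card (ev s) / 2` (`form_lower`, `chgU_lower`, `lap3`); Cauchy-Schwarz. -/
theorem kpd : ∃ c : ℝ, 0 < c ∧ ∀ m : ℕ, 1 ≤ m → ∃ s₀ : ℕ, 1 ≤ s₀ ∧ ∀ s : ℕ, s₀ ≤ s → ∀ D : Finset V, BdryPar D 0 →
    Box (0, 0) (4 ^ (m + 1) * s) ⊆ D →
    c * m * ((ev s).card : ℝ) ^ 2 ≤ avg (Om D) (fun h => (∑ z ∈ ev s, (h z : ℝ)) ^ 2) := by
  obtain ⟨C, hC, hTL⟩ := tails
  obtain ⟨n₁, hn₁⟩ := lap3
  refine ⟨1 / (4 * (300000001 * (C + 1))), by positivity, fun m hm => ?_⟩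
  refine ⟨20 * (250880000 * m * 16 ^ m + ⌈64 * C⌉₊ + n₁ + 10), by omega, fun s hs D hD hDs => ?_⟩
  set R : ℕ := s / 10 with hRd
  have h16 : 1 ≤ 16 ^ m := Nat.one_le_pow _ _ (by norm_num)
  have hR1 : 250880000 * m * 16 ^ m + ⌈64 * C⌉₊ + n₁ + 10 ≤ R := by omega
  have hR : 1 ≤ R := by omega
  have hRs : 10 * R ≤ s := by omega
  have hRs' : s ≤ 20 * R := by omega
  have hbig : 250880000 * m * 16 ^ m ≤ R := by omega
  have hCR : 64 * C ≤ R := by
    refine (Nat.le_ceil _).trans ?_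
    have : ⌈64 * C⌉₊ ≤ R := by omega
    exact_mod_cast this
  have hpow : 4 ^ (m + 1) * s = 4 * (4 ^ m * s) := by ring
  have hms : 4 * s ≤ 4 ^ m * s := by
    refine Nat.mul_le_mul_right _ ?_
    calc 4 = 4 ^ 1 := by norm_num
      _ ≤ 4 ^ m := Nat.pow_le_pow_right (by norm_num) hm
  rw [hpow] at hDs
  -- the set of admissible points
  set S : Finset V := Box (0, 0) (2 * (4 ^ m * s) + 3 * R + (8 * R + 8)) with hSd
  have hdeep : ∀ M r : ℕ, Deep (Box (0, 0) (M + r)) (Box (0, 0) M) r := by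
    intro M r x hx v hv
    rw [mem_Box] at hx ⊢
    unfold dist1 at hv
    have h1 : |v.1 - (0 : ℤ)| ≤ |x.1 - 0| + |x.1 - v.1| := by
      have := abs_sub_abs_le_abs_sub v.1 x.1
      rw [sub_zero, sub_zero, abs_sub_comm x.1 v.1]
      linarith
    have h2 : |v.2 - (0 : ℤ)| ≤ |x.2 - 0| + |x.2 - v.2| := by
      have := abs_sub_abs_le_abs_sub v.2 x.2
      rw [sub_zero, sub_zero, abs_sub_comm x.2 v.2]
      linarith
    have h3 := abs_nonneg (x.1 - v.1)
    have h4 := abs_nonneg (x.2 - v.2)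
    push_cast
    exact ⟨by linarith [hx.1, hx.2], by linarith [hx.1, hx.2]⟩
  have hS : Deep S (Box (0, 0) (2 * (4 ^ m * s) + 3 * R)) (8 * R + 8) := by
    have := hdeep (2 * (4 ^ m * s) + 3 * R) (8 * R + 8)
    push_cast at this
    exact this
  have hDS : Deep D S (R + 2) := by
    intro x hx v hv
    refine hDs (box_mono (M := 2 * (4 ^ m * s) + 3 * R + (8 * R + 8) + (R + 2)) (by omega) ?_)
    have := hdeep (2 * (4 ^ m * s) + 3 * R + (8 * R + 8)) (R + 2) x hx v (by push_cast; exact hv)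
    exact this
  have hDd : Deep D (Box (0, 0) (2 * (4 ^ m * s) + 3 * R)) (8 * R + 8) := by
    intro x hx v hv
    exact hDs (box_mono (M := 2 * (4 ^ m * s) + 3 * R + (8 * R + 8)) (by omega) (hS x hx v hv))
  obtain ⟨hT, hL⟩ := hTL D S R hR hDS
  have hlap : ∀ x ∈ ev s, 3 ≤ avg (Om D) (fun h => (Lap h x : ℝ) ^ 2) := by
    intro x hx
    obtain ⟨hx1, hx2⟩ := Finset.mem_filter.1 hx
    refine hn₁ D hD x hx2 fun y hy => hDs ?_
    rw [mem_Box] at hx1 hy ⊢
    simp only [sub_zero] at hx1 ⊢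
    have hb : (s : ℤ) + n₁ ≤ 4 * (4 ^ m * s) := by
      have : s + n₁ ≤ 4 * (4 ^ m * s) := by omega
      exact_mod_cast this
    push_cast
    obtain ⟨h1, h2⟩ := hx1
    obtain ⟨h3, h4⟩ := hy
    rw [abs_le] at h1 h2 h3 h4 ⊢
    rw [abs_le]
    refine ⟨⟨?_, ?_⟩, ?_, ?_⟩ <;> linarith
  have hA := Ps_total hR hRs hRs' hC hT hL hDd hS hbig
  have hB := form_total (m := m) hR hRs hCR hL hDd hS hlap
  set P : (V → ℤ) → ℝ := fun h => ∑ j ∈ range m, Ps R (2 * (4 ^ m * s) + 3 * R) (4 ^ (j + 1) * s) h with hP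
  set X : (V → ℤ) → ℝ := fun h => ∑ z ∈ ev s, (h z : ℝ) with hX
  have hcs := avg_cs (Om D) P X
  have hV : 0 ≤ avg (Om D) (fun h => X h ^ 2) := by
    unfold avg
    exact div_nonneg (Finset.sum_nonneg fun g _ => sq_nonneg _) (Nat.cast_nonneg _)
  have hm0 : (0 : ℝ) < m := by exact_mod_cast hm
  have hq : ((m : ℝ) * (((ev s).card : ℝ) / 2)) ^ 2 ≤ (avg (Om D) (fun h => P h * X h)) ^ 2 := by
    rw [← neg_sq (avg (Om D) (fun h => P h * X h))]
    exact pow_le_pow_left₀ (by positivity) hB 2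
  have h5 : ((m : ℝ) * (((ev s).card : ℝ) / 2)) ^ 2 ≤ (m * (300000001 * (C + 1))) * avg (Om D) (fun h => X h ^ 2) := by
    refine hq.trans (hcs.trans (mul_le_mul_of_nonneg_right (hA.trans ?_) hV))
    nlinarith
  show 1 / (4 * (300000001 * (C + 1))) * m * ((ev s).card : ℝ) ^ 2 ≤ avg (Om D) (fun h => X h ^ 2)
  rw [div_mul_eq_mul_div, div_mul_eq_mul_div, div_le_iff₀ (by positivity)]
  have h6 : (m : ℝ) * (m * ((ev s).card : ℝ) ^ 2) ≤
      m * (avg (Om D) (fun h => X h ^ 2) * (4 * (300000001 * (C + 1)))) := by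
    nlinarith
  have h7 := le_of_mul_le_mul_left h6 hm0
  linarith

end KD
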