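import Pool.Agent.Helper14.KD.E

/-!
Cut off functions and the quadratic form with many scales.
-/

open Finset RP4 KP

namespace KD

/-- the cut off: `1` on the square of radius `L`, `0` off the square of radius `2 L` -/
noncomputable def chi (L : ℕ) (x : V) : ℝ := max 0 (min 1 (2 - (max |(x.1 : ℝ)| |(x.2 : ℝ)|) / L))

lemma chi_nonneg (L : ℕ) (x : V) : 0 ≤ chi L x := le_max_left _ _

lemma chi_le_one (L : ℕ) (x : V) : chi L x ≤ 1 := max_le zero_le_one (min_le_left _ _)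

lemma chi_abs (L : ℕ) (x : V) : |chi L x| ≤ 1 := by
  rw [abs_of_nonneg (chi_nonneg L x)]
  exact chi_le_one L x

lemma box_real {x : V} {N : ℕ} : x ∈ Box (0, 0) N ↔ max |(x.1 : ℝ)| |(x.2 : ℝ)| ≤ N := by
  rw [mem_Box, max_le_iff]
  simp only [sub_zero]
  constructor
  · rintro ⟨h1, h2⟩
    exact ⟨by exact_mod_cast h1, by exact_mod_cast h2⟩
  · rintro ⟨h1, h2⟩
    exact ⟨by exact_mod_cast h1, by exact_mod_cast h2⟩

lemma chi_one {L : ℕ} (hL : 1 ≤ L) {x : V} (hx : x ∈ Box (0, 0) L) : chi L x = 1 := by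
  rw [box_real] at hx
  have hL0 : (0 : ℝ) < L := by exact_mod_cast hL
  have h1 : max |(x.1 : ℝ)| |(x.2 : ℝ)| / L ≤ 1 := (div_le_one hL0).2 hx
  unfold chi
  rw [min_eq_left (by linarith), max_eq_right zero_le_one]

lemma chi_zero {L : ℕ} (hL : 1 ≤ L) {x : V} (hx : x ∉ Box (0, 0) (2 * L)) : chi L x = 0 := by
  rw [box_real, not_le] at hx
  have hL0 : (0 : ℝ) < L := by exact_mod_cast hL
  have h1 : 2 ≤ max |(x.1 : ℝ)| |(x.2 : ℝ)| / L := by
    rw [le_div_iff₀ hL0]
    push_cast at hx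
    exact hx.le
  unfold chi
  exact max_eq_left ((min_le_right _ _).trans (by linarith))

lemma chi_lip {L : ℕ} (hL : 1 ≤ L) (x y : V) : |chi L x - chi L y| ≤ 1 / L * dist1 x y := by
  have hL0 : (0 : ℝ) < L := by exact_mod_cast hL
  have h1 : |(max |(x.1 : ℝ)| |(x.2 : ℝ)|) - (max |(y.1 : ℝ)| |(y.2 : ℝ)|)| ≤ (dist1 x y : ℝ) := by
    refine (abs_max_sub_max_le_max _ _ _ _).trans ?_
    have h2 := abs_abs_sub_abs_le (x.1 : ℝ) y.1
    have h3 := abs_abs_sub_abs_le (x.2 : ℝ) y.2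
    have h4 := abs_nonneg ((x.1 : ℝ) - y.1)
    have h5 := abs_nonneg ((x.2 : ℝ) - y.2)
    unfold dist1
    push_cast
    exact max_le (by linarith) (by linarith)
  have h2 : |chi L x - chi L y| ≤ |(2 - (max |(x.1 : ℝ)| |(x.2 : ℝ)|) / L) - (2 - (max |(y.1 : ℝ)| |(y.2 : ℝ)|) / L)| := by
    unfold chi
    have h3 := abs_max_sub_max_le_abs (min 1 (2 - (max |(x.1 : ℝ)| |(x.2 : ℝ)|) / L))
      (min 1 (2 - (max |(y.1 : ℝ)| |(y.2 : ℝ)|) / L)) 0
    rw [max_comm 0, max_comm 0]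
    refine h3.trans ?_
    have h4 := abs_min_sub_min_le_max (1 : ℝ) (2 - (max |(x.1 : ℝ)| |(x.2 : ℝ)|) / L) 1
      (2 - (max |(y.1 : ℝ)| |(y.2 : ℝ)|) / L)
    refine h4.trans ?_
    rw [sub_self, abs_zero]
    exact max_le (abs_nonneg _) le_rfl
  refine h2.trans ?_
  have e : (2 - (max |(x.1 : ℝ)| |(x.2 : ℝ)|) / L) - (2 - (max |(y.1 : ℝ)| |(y.2 : ℝ)|) / L) =
      -(max |(x.1 : ℝ)| |(x.2 : ℝ)| - max |(y.1 : ℝ)| |(y.2 : ℝ)|) / L := by ring
  rw [e, abs_div, abs_neg, abs_of_pos hL0, one_div, inv_mul_eq_div]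
  exact div_le_div_of_nonneg_right h1 hL0.le

lemma box_mono {M N : ℕ} (h : M ≤ N) : Box (0, 0) M ⊆ Box (0, 0) N := by
  intro y hy
  rw [mem_Box] at hy ⊢
  have : (M : ℤ) ≤ N := by exact_mod_cast h
  exact ⟨hy.1.trans this, hy.2.trans this⟩

lemma box_card (N : ℕ) : ((Box (0, 0) N).card : ℝ) = (2 * (N : ℝ) + 1) ^ 2 := by
  unfold Box
  rw [Finset.card_product]
  simp only [Int.card_Icc]
  have e1 : ((0 : ℤ) + (N : ℤ) + 1 - (0 - (N : ℤ))).toNat = 2 * N + 1 := by omega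
  rw [e1]
  push_cast
  ring

lemma avg_mul_sum {ι : Type*} (Sg : Finset (V → ℤ)) (t : Finset ι) (a : ι → ℝ) (F : ι → (V → ℤ) → ℝ) (G : (V → ℤ) → ℝ) :
    avg Sg (fun h => (∑ i ∈ t, a i * F i h) * G h) = ∑ i ∈ t, a i * avg Sg (fun h => F i h * G h) := by
  unfold avg
  have h1 : ∑ h ∈ Sg, (∑ i ∈ t, a i * F i h) * G h = ∑ i ∈ t, a i * ∑ h ∈ Sg, F i h * G h := by
    simp only [Finset.sum_mul, Finset.mul_sum]
    rw [Finset.sum_comm]
    refine Finset.sum_congr rfl fun i _ => Finset.sum_congr rfl fun h _ => by ring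
  rw [h1, Finset.sum_div]
  refine Finset.sum_congr rfl fun i _ => by rw [mul_div_assoc]

/-- the drift tested against a cut off -/
noncomputable def Ps (R N L : ℕ) (h : V → ℤ) : ℝ := ∑ x ∈ Box (0, 0) N, chi L x * psi R h x

lemma Ps_eq {R N L : ℕ} (hL : 1 ≤ L) (hN : 2 * L + 3 * R ≤ N) (h : V → ℤ) :
    Ps R N L h = ∑ x ∈ Box (0, 0) (2 * L + 3 * R), chi L x * psi R h x := by
  unfold Ps
  refine (Finset.sum_subset (box_mono hN) fun x _ hx => ?_).symm
  rw [chi_zero hL (fun h1 => hx (box_mono (by omega) h1)), zero_mul]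

/-- the square of one scale -/
theorem Ps_sq {D S : Finset V} {R N L : ℕ} {C : ℝ} (hR : 1 ≤ R) (hC : 0 ≤ C) (hT : TailU D S R C) (hL : LongT D S R C)
    (hD : Deep D (Box (0, 0) N) (8 * R + 8)) (hS : Deep S (Box (0, 0) N) (8 * R + 8)) (hL1 : 1 ≤ L)
    (hN : 2 * L + 3 * R ≤ N) :
    avg (Om D) (fun h => Ps R N L h ^ 2) ≤
      (12000000 * C * (1 / L) ^ 2 + 25088 * C / ((R : ℝ) + 1) ^ 6) * (2 * (2 * L + 3 * R : ℝ) + 1) ^ 2 := by
  have h1 := quad_upper (T := 2 * L) (Λ := 1 / L) (B := 1) hR hC hT hL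
    (fun x hx v hv => hD x (box_mono hN hx) v hv) (fun x hx v hv => hS x (box_mono hN hx) v hv) (chi L)
    (fun x hx => chi_zero hL1 hx) (fun x y => chi_lip hL1 x y) (fun x => chi_abs L x)
  rw [box_card] at h1
  push_cast at h1
  have h2 : avg (Om D) (fun h => Ps R N L h ^ 2) =
      avg (Om D) (fun h => (∑ x ∈ Box (0, 0) (2 * L + 3 * R), chi L x * psi R h x) ^ 2) := by
    congr 1
    funext h
    rw [Ps_eq hL1 hN]
  rw [h2]
  refine h1.trans (le_of_eq ?_)
  ring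

/-- the mixed terms -/
theorem Ps_mixed {D S : Finset V} {R N L L' : ℕ} {C : ℝ} (hR : 1 ≤ R) (hC : 0 ≤ C) (hT : TailU D S R C) (hL : LongT D S R C)
    (hD : Deep D (Box (0, 0) N) (8 * R + 8)) (hS : Deep S (Box (0, 0) N) (8 * R + 8)) (hL1 : 1 ≤ L)
    (hLL : 2 * L + 3 * R ≤ L') (hN : L' ≤ N) :
    |avg (Om D) (fun h => Ps R N L h * Ps R N L' h)| ≤
      (4 * (L : ℝ) + 1) ^ 2 * (25088 * C / ((R : ℝ) + 1) ^ 6) := by
  have hB : Box (0, 0) (2 * L) ⊆ Box (0, 0) N := box_mono (by omega)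
  have h1 : avg (Om D) (fun h => Ps R N L h * Ps R N L' h) =
      ∑ x ∈ Box (0, 0) (2 * L), chi L x * avg (Om D) (fun h => psi R h x * Ps R N L' h) := by
    have e : ∀ h, Ps R N L h = ∑ x ∈ Box (0, 0) (2 * L), chi L x * psi R h x := by
      intro h
      unfold Ps
      refine (Finset.sum_subset hB fun x _ hx => ?_).symm
      rw [chi_zero hL1 hx, zero_mul]
    simp only [e]
    exact avg_mul_sum (Om D) _ (chi L) (fun x h => psi R h x) _
  have h2 : ∀ x ∈ Box (0, 0) (2 * L), |avg (Om D) (fun h => psi R h x * Ps R N L' h)| ≤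
      25088 * C / ((R : ℝ) + 1) ^ 6 := by
    intro x hx
    have hxD : ∀ v, dist1 x v ≤ 8 * R + 8 → v ∈ D := fun v hv => hD x (hB hx) v hv
    have hxS : ∀ v, dist1 x v ≤ 8 * R + 8 → v ∈ S := fun v hv => hS x (hB hx) v hv
    have hsub : Box x (3 * R) ⊆ Box (0, 0) L' := by
      intro y hy
      rw [mem_Box] at hy hx ⊢
      simp only [sub_zero] at hx ⊢
      push_cast at hy hx
      obtain ⟨h3, h4⟩ := hy
      obtain ⟨h5, h6⟩ := hx
      rw [abs_le] at h3 h4 h5 h6 ⊢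
      rw [abs_le]
      refine ⟨⟨?_, ?_⟩, ?_, ?_⟩ <;> omega
    have h3 : avg (Om D) (fun h => psi R h x * Ps R N L' h) =
        ∑ y ∈ Box x (3 * R), avg (Om D) (fun h => psi R h x * psi R h y) := by
      have e1 : avg (Om D) (fun h => psi R h x * Ps R N L' h) =
          ∑ y ∈ Box (0, 0) N, chi L' y * avg (Om D) (fun h => psi R h y * psi R h x) := by
        have e2 := avg_mul_sum (Om D) (Box (0, 0) N) (chi L') (fun y h => psi R h y) (fun h => psi R h x)
        rw [← e2]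
        congr 1
        funext h
        exact mul_comm _ _
      rw [e1]
      have e3 : ∑ y ∈ Box (0, 0) N, chi L' y * avg (Om D) (fun h => psi R h y * psi R h x) =
          ∑ y ∈ Box x (3 * R), chi L' y * avg (Om D) (fun h => psi R h y * psi R h x) := by
        refine (Finset.sum_subset (hsub.trans (box_mono hN)) fun y _ hy => ?_).symm
        have e4 : avg (Om D) (fun h => psi R h y * psi R h x) = 0 := by
          have e5 := psi_corr_zero (D := D) (R := R) (x := x) (y := y)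
            (fun v hv => hxD v (by
              have : (0 : ℤ) ≤ R := Int.natCast_nonneg R
              linarith)) (by
              by_contra hcon
              push Not at hcon
              refine hy ?_
              rw [mem_Box]
              unfold dist1 at hcon
              have e1 := abs_nonneg (x.1 - y.1)
              have e2 := abs_nonneg (x.2 - y.2)
              rw [abs_sub_comm y.1, abs_sub_comm y.2]
              push_cast
              constructor <;> linarith)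
          rw [← e5]
          congr 1
          funext h
          exact mul_comm _ _
        rw [e4, mul_zero]
      rw [e3]
      refine Finset.sum_congr rfl fun y hy => ?_
      rw [chi_one (by omega) (hsub hy), one_mul]
      congr 1
      funext h
      exact mul_comm _ _
    rw [h3]
    exact row_bound hR hC hT hL hxD hxS
  rw [h1]
  refine (Finset.abs_sum_le_sum_abs _ _).trans ?_
  have h3 : ∀ x ∈ Box (0, 0) (2 * L), |chi L x * avg (Om D) (fun h => psi R h x * Ps R N L' h)| ≤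
      25088 * C / ((R : ℝ) + 1) ^ 6 := by
    intro x hx
    rw [abs_mul]
    have h4 := mul_le_mul (chi_abs L x) (h2 x hx) (abs_nonneg _) zero_le_one
    rwa [one_mul] at h4
  refine (Finset.sum_le_card_nsmul _ _ _ h3).trans (le_of_eq ?_)
  rw [nsmul_eq_mul, box_card]
  push_cast
  ring

/-- the linear form does not depend on the scale -/
theorem Ps_form {D S₀ : Finset V} {R N L T : ℕ} (f : V → ℝ) (hf0 : ∀ x, x ∉ S₀ → f x = 0)
    (hfT : ∀ x, x ∉ Box (0, 0) T → f x = 0) (hD : ∀ x ∈ Box (0, 0) N, ∀ v, dist1 x v ≤ R → v ∈ D)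
    (hTL : T + 3 * R ≤ L) (hL1 : 1 ≤ L) (hN : L ≤ N) :
    avg (Om D) (fun h => Ps R N L h * ∑ z ∈ S₀, f z * (h z : ℝ)) =
      ∑ x ∈ Box (0, 0) (T + 3 * R), avg (Om D) (fun h => psi R h x * ∑ z ∈ S₀, f z * (h z : ℝ)) := by
  have h1 := avg_mul_sum (Om D) (Box (0, 0) N) (chi L) (fun x h => psi R h x)
    (fun h => ∑ z ∈ S₀, f z * (h z : ℝ))
  have h2 : avg (Om D) (fun h => Ps R N L h * ∑ z ∈ S₀, f z * (h z : ℝ)) =
      ∑ x ∈ Box (0, 0) N, chi L x * avg (Om D) (fun h => psi R h x * ∑ z ∈ S₀, f z * (h z : ℝ)) := by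
    rw [← h1]
    rfl
  rw [h2]
  have h3 : ∑ x ∈ Box (0, 0) N, chi L x * avg (Om D) (fun h => psi R h x * ∑ z ∈ S₀, f z * (h z : ℝ)) =
      ∑ x ∈ Box (0, 0) (T + 3 * R), chi L x * avg (Om D) (fun h => psi R h x * ∑ z ∈ S₀, f z * (h z : ℝ)) := by
    refine (Finset.sum_subset (box_mono (by omega)) fun x hx hx' => ?_).symm
    rw [psi_lin_zero f hf0 hfT (hD x hx) hx', mul_zero]
  rw [h3]
  refine Finset.sum_congr rfl fun x hx => ?_
  rw [chi_one hL1 (box_mono hTL hx), one_mul]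

end KD
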