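import Pool.Agent.Helper14.KD.M
import Pool.Agent.Helper35.MD.G7

/-!
A pair of points with a large covariance.
-/

open Finset RP4 KP

namespace KD

private lemma P_ev_card (s : ℕ) : (s : ℝ) ^ 2 ≤ ((ev s).card : ℝ) := by
  classical
  have h : (Finset.range s ×ˢ Finset.range s).card ≤ (ev s).card := by
    refine Finset.card_le_card_of_injOn
      (fun q : ℕ × ℕ => (((q.1 : ℤ) - q.2, (q.1 : ℤ) + q.2 - 2 * ((s / 2 : ℕ) : ℤ)) : V)) ?_ ?_
    · rintro ⟨i, j⟩ hq
      rw [Finset.mem_coe, Finset.mem_product, Finset.mem_range, Finset.mem_range] at hq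
      obtain ⟨hi, hj⟩ := hq
      simp only at hi hj
      rw [Finset.mem_coe]
      unfold ev
      rw [Finset.mem_filter, mem_Box]
      refine ⟨⟨?_, ?_⟩, ?_⟩
      · simp only [sub_zero, abs_le]
        constructor <;> omega
      · simp only [sub_zero, abs_le]
        constructor <;> omega
      · unfold par
        rw [Int.even_iff]
        simp only
        omega
    · rintro ⟨i, j⟩ _ ⟨i', j'⟩ _ hq
      simp only [Prod.mk.injEq] at hq
      obtain ⟨h1, h2⟩ := hq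
      simp only [Prod.mk.injEq]
      constructor <;> omega
  rw [Finset.card_product, Finset.card_range] at h
  calc (s : ℝ) ^ 2 = ((s * s : ℕ) : ℝ) := by push_cast; ring
    _ ≤ _ := by exact_mod_cast h

private lemma P_expand (D : Finset V) (S : Finset V) :
    avg (Om D) (fun h => (∑ z ∈ S, (h z : ℝ)) ^ 2) = ∑ w ∈ S, ∑ x ∈ S, MD.cv D x w := by
  have h2 : (fun h : V → ℤ => (∑ z ∈ S, (h z : ℝ)) ^ 2) =
      fun h => ∑ w ∈ S, ∑ x ∈ S, ((h x : ℝ) * h w) := by
    funext h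
    rw [pow_two, Finset.sum_mul_sum, Finset.sum_comm]
  rw [h2]
  unfold MD.cv avg
  simp only [← Finset.sum_div]
  congr 1
  rw [Finset.sum_comm]
  refine Finset.sum_congr rfl fun w _ => ?_
  rw [Finset.sum_comm]

/-- PAIR.  `kpd` with `c m ≥ A + 1`, `K = 4 ^ (m + 1)`, `D = diam (2 K s)` or any even domain between the squares of radii `K s` and `4 K s`; the pairs `u, w ∈ ev s` with `|u - w| ≤ κ s` contribute at most
`card (ev s) * C * (8 K s) * (κ s + 1) ≤ card (ev s)^2` for `κ` small, `s` large (`MD.near_all`, covariances are nonnegative, `MD.cv_nonneg`), so some pair with sup-distance `> κ s` has covariance at least `A` in `D`;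
`v` is its difference.  For another even point `x` and another domain: translation (`MD.cv_trans`) and monotonicity in the domain (see `MD.embed`). -/
theorem pair (A : ℝ) : ∃ K : ℕ, 1 ≤ K ∧ ∃ κ : ℝ, 0 < κ ∧ ∃ s₀ : ℕ, 1 ≤ s₀ ∧ ∀ s : ℕ, s₀ ≤ s → ∃ v : V, Even (par v) ∧
    κ * s ≤ max |(v.1 : ℝ)| |(v.2 : ℝ)| ∧ |v.1| ≤ 2 * s ∧ |v.2| ≤ 2 * s ∧
    ∀ (D : Finset V) (x : V), BdryPar D 0 → Even (par x) → Box x (K * s) ⊆ D → A ≤ MD.cv D x (x.1 + v.1, x.2 + v.2) := by
  classical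
  obtain ⟨c, hc, hk⟩ := kpd
  obtain ⟨C, hC, hnear⟩ := MD.near_all
  -- the level `B ≥ A`, `B ≥ 0`, and the number of scales
  obtain ⟨B, hB0, hBA⟩ : ∃ B : ℝ, 0 ≤ B ∧ A ≤ B := ⟨max A 0, le_max_right _ _, le_max_left _ _⟩
  obtain ⟨m, hm1, hm⟩ : ∃ m : ℕ, 1 ≤ m ∧ B + 1 ≤ c * m := by
    obtain ⟨m, hm⟩ := exists_nat_ge ((B + 1) / c)
    refine ⟨m + 1, by omega, ?_⟩
    rw [div_le_iff₀ hc] at hm
    push_cast
    nlinarith
  obtain ⟨s₁, hs₁, hks⟩ := hk m hm1
  obtain ⟨K0, hK0⟩ : ∃ K0 : ℕ, K0 = 4 ^ (m + 1) := ⟨_, rfl⟩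
  have hK1 : 1 ≤ K0 := by rw [hK0]; exact Nat.one_le_pow _ _ (by norm_num)
  rw [← hK0] at hks
  have hK0r : (1 : ℝ) ≤ K0 := by exact_mod_cast hK1
  -- `κ = 1 / E`, `E = 16 (C + 1) K0`
  obtain ⟨E, hE⟩ : ∃ E : ℝ, E = 16 * (C + 1) * K0 := ⟨_, rfl⟩
  have hE1 : 16 ≤ E := by
    rw [hE]
    nlinarith [mul_nonneg hC (by linarith : (0 : ℝ) ≤ K0)]
  have hE0 : 0 < E := by linarith
  obtain ⟨s₂, hs₂⟩ := exists_nat_ge E
  refine ⟨3 * K0, by omega, 1 / E, by positivity, max s₁ s₂, le_max_of_le_left hs₁,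
    fun s hs => ?_⟩
  have hs1 : s₁ ≤ s := (le_max_left _ _).trans hs
  have hsE : E ≤ s := hs₂.trans (by exact_mod_cast (le_max_right _ _).trans hs)
  have hs0 : (0 : ℝ) < s := by linarith
  have hs1' : 1 ≤ s := hs₁.trans hs1
  obtain ⟨D0, hD0⟩ : ∃ D0 : Finset V, D0 = diam (2 * (K0 * s)) := ⟨_, rfl⟩
  have hmem : ∀ v : V, v ∈ D0 ↔ |v.1| + |v.2| ≤ 2 * ((K0 : ℤ) * s) := by
    intro v
    rw [hD0, mem_diam]
    push_cast
    exact Iff.rfl
  have hpar : BdryPar D0 0 := by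
    rw [hD0]
    exact diam_bdryPar _ (even_two_mul _)
  have hbox : Box (0, 0) (K0 * s) ⊆ D0 := by
    intro v hv
    rw [mem_Box] at hv
    rw [hmem]
    simp only [sub_zero] at hv
    push_cast at hv
    linarith [hv.1, hv.2]
  have hdia : ∀ u ∈ D0, ∀ v ∈ D0, |u.1 - v.1| ≤ ((4 * (K0 * s) : ℕ) : ℤ) ∧
      |u.2 - v.2| ≤ ((4 * (K0 * s) : ℕ) : ℤ) := by
    intro u hu v hv
    rw [hmem] at hu hv
    push_cast
    have a1 := abs_sub u.1 v.1
    have a2 := abs_sub u.2 v.2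
    have b1 := abs_nonneg u.1
    have b2 := abs_nonneg u.2
    have b3 := abs_nonneg v.1
    have b4 := abs_nonneg v.2
    constructor <;> linarith
  have hev : ∀ z ∈ ev s, z ∈ D0 ∧ |z.1| ≤ s ∧ |z.2| ≤ s ∧ Even (par z) := by
    intro z hz
    unfold ev at hz
    rw [Finset.mem_filter, mem_Box] at hz
    simp only [sub_zero] at hz
    refine ⟨?_, hz.1.1, hz.1.2, hz.2⟩
    rw [hmem]
    have h1 : (s : ℤ) ≤ (K0 : ℤ) * s := by
      have : (1 : ℤ) ≤ K0 := by exact_mod_cast hK1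
      nlinarith [this, (Int.natCast_nonneg s)]
    linarith [hz.1.1, hz.1.2]
  -- lower bound
  have hlow := hks s hs1 D0 hpar hbox
  rw [P_expand] at hlow
  -- the near pairs
  obtain ⟨k, hk1, hk2⟩ : ∃ k : ℕ, (k : ℝ) ≤ 1 / E * s ∧ 1 / E * s < k + 1 :=
    ⟨⌊1 / E * s⌋₊, Nat.floor_le (by positivity), Nat.lt_floor_add_one _⟩
  have hN : ((ev s).card : ℝ) ≥ (s : ℝ) ^ 2 := P_ev_card s
  have hNpos : 0 < ((ev s).card : ℝ) := lt_of_lt_of_le (by positivity) hN
  have hnear' : ∀ w ∈ ev s, ∑ x ∈ (ev s).filter (fun x => |x.2 - w.2| ≤ (k : ℤ)), MD.cv D0 x w ≤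
      1 / 2 * ((ev s).card : ℝ) := by
    intro w hw
    have h1 := (hnear (4 * (K0 * s)) (by nlinarith) D0 hpar hdia w (hev w hw).1 w.2 k).1
    have h2 : ∑ x ∈ (ev s).filter (fun x => |x.2 - w.2| ≤ (k : ℤ)), MD.cv D0 x w ≤
        ∑ x ∈ D0.filter (fun x => |x.2 - w.2| ≤ (k : ℤ)), MD.cv D0 x w := by
      apply Finset.sum_le_sum_of_subset_of_nonneg
      · intro x hx
        rw [Finset.mem_filter] at hx ⊢
        exact ⟨(hev x hx.1).1, hx.2⟩
      · intro x _ _
        exact MD.cv_nonneg _ _ _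
    refine (h2.trans h1).trans ?_
    have h3 : (k : ℝ) + 1 ≤ 2 * s / E := by
      have h4 : 1 ≤ (s : ℝ) / E := by
        rw [le_div_iff₀ hE0]
        linarith
      have h5 : 1 / E * s = s / E := by ring
      rw [h5] at hk1
      have h6 : 2 * (s : ℝ) / E = s / E + s / E := by ring
      linarith
    have h4 : C * (((4 * (K0 * s) : ℕ) : ℝ) * (k + 1)) ≤ C * ((4 * (K0 * s)) * (2 * s / E)) := by
      push_cast
      gcongr
    refine h4.trans ?_
    have h5 : C * ((4 * ((K0 : ℝ) * s)) * (2 * s / E)) = 8 * C * K0 / E * (s : ℝ) ^ 2 := by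
      field_simp
      ring
    rw [h5]
    have h6 : 8 * C * K0 / E ≤ 1 / 2 := by
      rw [div_le_div_iff₀ hE0 (by norm_num), hE]
      nlinarith [mul_nonneg hC (by linarith : (0 : ℝ) ≤ K0)]
    calc 8 * C * K0 / E * (s : ℝ) ^ 2 ≤ 1 / 2 * (s : ℝ) ^ 2 :=
          mul_le_mul_of_nonneg_right h6 (by positivity)
      _ ≤ 1 / 2 * ((ev s).card : ℝ) := by linarith
  -- a far pair with large covariance
  obtain ⟨w, hw, x, hx, hfar, hcv⟩ : ∃ w ∈ ev s, ∃ x ∈ ev s, (k : ℤ) < |x.2 - w.2| ∧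
      B < MD.cv D0 x w := by
    by_contra hcon
    push Not at hcon
    have h1 : ∀ w ∈ ev s, ∑ x ∈ ev s, MD.cv D0 x w ≤ (B + 1 / 2) * ((ev s).card : ℝ) := by
      intro w hw
      rw [← Finset.sum_filter_add_sum_filter_not (ev s) (fun x => |x.2 - w.2| ≤ (k : ℤ))]
      have h2 : ∑ x ∈ (ev s).filter (fun x => ¬ |x.2 - w.2| ≤ (k : ℤ)), MD.cv D0 x w ≤
          B * ((ev s).card : ℝ) := by
        calc ∑ x ∈ (ev s).filter (fun x => ¬ |x.2 - w.2| ≤ (k : ℤ)), MD.cv D0 x w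
            ≤ ∑ _x ∈ (ev s).filter (fun x => ¬ |x.2 - w.2| ≤ (k : ℤ)), B := by
              refine Finset.sum_le_sum fun x hx => ?_
              rw [Finset.mem_filter, not_le] at hx
              exact hcon w hw x hx.1 hx.2
          _ = (((ev s).filter (fun x => ¬ |x.2 - w.2| ≤ (k : ℤ))).card : ℝ) * B := by
              rw [Finset.sum_const, nsmul_eq_mul]
          _ ≤ B * ((ev s).card : ℝ) := by
              rw [mul_comm]
              refine mul_le_mul_of_nonneg_left ?_ hB0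
              exact_mod_cast Finset.card_filter_le _ _
      linarith [hnear' w hw]
    have h3 : ∑ w ∈ ev s, ∑ x ∈ ev s, MD.cv D0 x w ≤
        (B + 1 / 2) * ((ev s).card : ℝ) * ((ev s).card : ℝ) := by
      calc ∑ w ∈ ev s, ∑ x ∈ ev s, MD.cv D0 x w
          ≤ ∑ _w ∈ ev s, (B + 1 / 2) * ((ev s).card : ℝ) := Finset.sum_le_sum h1
        _ = _ := by
            rw [Finset.sum_const, nsmul_eq_mul, mul_comm]
    have h4 : (B + 1) * ((ev s).card : ℝ) ^ 2 ≤ c * m * ((ev s).card : ℝ) ^ 2 :=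
      mul_le_mul_of_nonneg_right hm (by positivity)
    have h5 : 0 < ((ev s).card : ℝ) ^ 2 := by positivity
    nlinarith [h3, h4, hlow]
  obtain ⟨hxD, hx1, hx2, hxe⟩ := hev x hx
  obtain ⟨hwD, hw1, hw2, hwe⟩ := hev w hw
  refine ⟨(w.1 - x.1, w.2 - x.2), ?_, ?_, ?_, ?_, ?_⟩
  · unfold par at hxe hwe ⊢
    rw [Int.even_iff] at hxe hwe ⊢
    simp only
    omega
  · refine le_max_of_le_right ?_
    have h1 : ((k : ℤ) : ℝ) + 1 ≤ ((|x.2 - w.2| : ℤ) : ℝ) := by exact_mod_cast hfar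
    have h2 : ((|x.2 - w.2| : ℤ) : ℝ) = |((w.2 - x.2 : ℤ) : ℝ)| := by
      rw [abs_sub_comm]
      push_cast
      rfl
    rw [← h2]
    have h3 : ((k : ℤ) : ℝ) = (k : ℝ) := by norm_cast
    linarith
  · have := abs_sub w.1 x.1
    simp only
    linarith
  · have := abs_sub w.2 x.2
    simp only
    linarith
  · intro D y hD hy hbx
    obtain ⟨t, ht⟩ : ∃ t : V, t = (y.1 - x.1, y.2 - x.2) := ⟨_, rfl⟩
    have hte : Even (par t) := by
      rw [ht]
      unfold par at hxe hy ⊢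
      rw [Int.even_iff] at hxe hy ⊢
      simp only
      omega
    have hsub : img (RP4.trans t) D0 ⊆ D := by
      intro v hv
      rw [T1_mem_img] at hv
      have e : (RP4.trans t).symm v = v - t := by
        simp [RP4.trans, sub_eq_add_neg]
      rw [e, hmem] at hv
      have e1 : (v - t).1 = v.1 - (y.1 - x.1) := by rw [ht]; rfl
      have e2 : (v - t).2 = v.2 - (y.2 - x.2) := by rw [ht]; rfl
      rw [e1, e2] at hv
      apply hbx
      rw [mem_Box]
      have b1 := abs_nonneg (v.1 - (y.1 - x.1))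
      have b2 := abs_nonneg (v.2 - (y.2 - x.2))
      have h1 : |v.1 - y.1| ≤ |v.1 - (y.1 - x.1)| + |x.1| := by
        have := abs_sub (v.1 - (y.1 - x.1)) x.1
        rwa [show v.1 - (y.1 - x.1) - x.1 = v.1 - y.1 by ring] at this
      have h2 : |v.2 - y.2| ≤ |v.2 - (y.2 - x.2)| + |x.2| := by
        have := abs_sub (v.2 - (y.2 - x.2)) x.2
        rwa [show v.2 - (y.2 - x.2) - x.2 = v.2 - y.2 by ring] at this
      have h3 : (s : ℤ) ≤ (K0 : ℤ) * s := by
        have : (1 : ℤ) ≤ K0 := by exact_mod_cast hK1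
        nlinarith [this, (Int.natCast_nonneg s)]
      push_cast
      constructor <;> linarith
    have hp : BdryPar (img (RP4.trans t) D0) 0 := by
      intro v hv
      rw [bdry_img (trans_lsym t), T1_mem_img] at hv
      have h1 := hpar _ hv
      have e : (RP4.trans t).symm v = v - t := by
        simp [RP4.trans, sub_eq_add_neg]
      rw [e] at h1
      have e3 : par (v - t) = par v - par t := by
        unfold par
        simp only [Prod.fst_sub, Prod.snd_sub]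
        ring
      rw [e3] at h1
      rw [Int.even_iff] at h1 hte ⊢
      omega
    have hm' : ∀ z ∈ D0, z + t ∈ img (RP4.trans t) D0 := by
      intro z hz
      rw [T1_mem_img]
      have e : (RP4.trans t).symm (z + t) = z := by
        simp [RP4.trans]
      rwa [e]
    have key := cov_mono _ _ hsub hp hD _ _ (hm' x hxD) (hm' w hwD)
    have e1 : x + t = y := by
      rw [ht]
      apply Prod.ext
      · show x.1 + (y.1 - x.1) = y.1
        ring
      · show x.2 + (y.2 - x.2) = y.2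
        ring
    have e2 : w + t = (y.1 + (w.1 - x.1), y.2 + (w.2 - x.2)) := by
      rw [ht]
      apply Prod.ext
      · show w.1 + (y.1 - x.1) = y.1 + (w.1 - x.1)
        ring
      · show w.2 + (y.2 - x.2) = y.2 + (w.2 - x.2)
        ring
    have h3 := MD.cv_trans D0 t hte x w
    unfold MD.cv at h3 hcv ⊢
    rw [e1, e2] at key h3
    rw [h3] at key
    linarith

end KD
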