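import Pool.Agent.Helper14.KD.M
import Pool.Agent.Helper35.MD.All

/-!
The logarithmic lower bound for bumps about an arbitrary even point.
-/

open Finset RP4 KP

namespace KD

/-- the variance of a linear functional as a double sum of covariances -/
lemma var_eq (D T : Finset V) (f : V → ℝ) :
    avg (Om D) (fun h => (∑ z ∈ T, f z * (h z : ℝ)) ^ 2) = ∑ z ∈ T, ∑ w ∈ T, f z * f w * MD.cv D z w := by
  unfold avg MD.cv avg
  have e2 : ∑ h ∈ Om D, (∑ z ∈ T, f z * (h z : ℝ)) ^ 2 =
      ∑ z ∈ T, ∑ w ∈ T, f z * f w * ∑ h ∈ Om D, (h z : ℝ) * h w := by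
    have e3 : ∑ h ∈ Om D, (∑ z ∈ T, f z * (h z : ℝ)) ^ 2 =
        ∑ h ∈ Om D, ∑ z ∈ T, ∑ w ∈ T, f z * f w * ((h z : ℝ) * h w) := by
      refine Finset.sum_congr rfl fun h _ => ?_
      rw [pow_two, Finset.sum_mul_sum]
      exact Finset.sum_congr rfl fun z _ => Finset.sum_congr rfl fun w _ => by ring
    rw [e3, Finset.sum_comm]
    refine Finset.sum_congr rfl fun z _ => ?_
    rw [Finset.sum_comm]
    refine Finset.sum_congr rfl fun w _ => ?_
    rw [Finset.mul_sum]
  rw [e2, Finset.sum_div]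
  refine Finset.sum_congr rfl fun z _ => ?_
  rw [Finset.sum_div]
  refine Finset.sum_congr rfl fun w _ => ?_
  rw [mul_div_assoc]

/-- at least `s ^ 2` even sites -/
lemma ev_card (s : ℕ) : (s : ℝ) ^ 2 ≤ ((ev s).card : ℝ) := by
  classical
  have h1 : ((range s ×ˢ range s).image (fun p : ℕ × ℕ =>
      ((p.1 : ℤ), 2 * (p.2 : ℤ) - s + ((p.1 : ℤ) + s) % 2))) ⊆ ev s := by
    intro v hv
    obtain ⟨p, hp, rfl⟩ := Finset.mem_image.1 hv
    obtain ⟨h1, h2⟩ := Finset.mem_product.1 hp
    have h3 := Finset.mem_range.1 h1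
    have h4 := Finset.mem_range.1 h2
    unfold ev
    rw [Finset.mem_filter, mem_Box]
    simp only [sub_zero]
    refine ⟨⟨?_, ?_⟩, ?_⟩
    · rw [abs_le]
      omega
    · rw [abs_le]
      omega
    · unfold par
      rw [Int.even_iff]
      omega
  have h2 := Finset.card_le_card h1
  rw [Finset.card_image_of_injOn, Finset.card_product, Finset.card_range] at h2
  · have h3 : ((s * s : ℕ) : ℝ) ≤ ((ev s).card : ℝ) := by exact_mod_cast h2
    push_cast at h3
    rw [pow_two]
    exact h3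
  · intro p _ q _ hpq
    simp only [Prod.mk.injEq] at hpq
    obtain ⟨h3, h4⟩ := hpq
    have h5 : p.1 = q.1 := by exact_mod_cast h3
    rw [h5] at h4
    have h6 : p.2 = q.2 := by omega
    exact Prod.ext h5 h6

/-- The logarithmic lower bound for every linear functional whose coefficients are nonnegative and at least `1` on the even sites of a square about an even point. -/
theorem kpd_at : ∃ c : ℝ, 0 < c ∧ ∀ m : ℕ, 1 ≤ m → ∃ s₀ : ℕ, 1 ≤ s₀ ∧ ∀ s : ℕ, s₀ ≤ s → ∀ D : Finset V, BdryPar D 0 →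
    ∀ x : V, Even (par x) → Box x (4 ^ (m + 1) * s) ⊆ D → ∀ (T : Finset V) (f : V → ℝ), (∀ z ∈ T, 0 ≤ f z) →
    (∀ z ∈ Box x s, Even (par z) → z ∈ T ∧ 1 ≤ f z) →
    c * m * (s : ℝ) ^ 4 ≤ avg (Om D) (fun h => (∑ z ∈ T, f z * (h z : ℝ)) ^ 2) := by
  classical
  obtain ⟨c, hc, h⟩ := kpd
  refine ⟨c, hc, fun m hm => ?_⟩
  obtain ⟨s₀, hs₀, h1⟩ := h m hm
  refine ⟨s₀, hs₀, fun s hs D hD x hx hDx T f hf hfT => ?_⟩
  have hxn : Even (par (-x)) := by
    have : par (-x) = -par x := by
      unfold par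
      simp only [Prod.fst_neg, Prod.snd_neg]
      ring
    rw [this]
    exact hx.neg
  set D' : Finset V := img (RP4.trans (-x)) D with hD'
  have hmem : ∀ v, v ∈ D' ↔ v + x ∈ D := by
    intro v
    rw [hD', T1_mem_img]
    have : (RP4.trans (-x)).symm v = v + x := by
      simp [RP4.trans]
    rw [this]
  have hpar : BdryPar D' 0 := by
    have h3 : BdryPar D (par x) := by
      intro v hv
      have := hD v hv
      rw [Int.even_iff] at this hx ⊢
      omega
    have h4 := (bdryPar_img (RP4.trans_lsym (-x)) D x).2 h3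
    have h0 : RP4.trans (-x) x = (0, 0) := by simp [RP4.trans]; rfl
    rw [h0] at h4
    simpa [par] using h4
  have hsub : Box (0, 0) (4 ^ (m + 1) * s) ⊆ D' := by
    intro v hv
    rw [hmem]
    apply hDx
    rw [mem_Box] at hv ⊢
    simpa using hv
  have h2 := h1 s hs D' hpar hsub
  have h3 : c * m * (s : ℝ) ^ 4 ≤ c * m * ((ev s).card : ℝ) ^ 2 := by
    have h4 := pow_le_pow_left₀ (by positivity) (ev_card s) 2
    have h5 : (s : ℝ) ^ 4 = ((s : ℝ) ^ 2) ^ 2 := by ring
    rw [h5]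
    exact mul_le_mul_of_nonneg_left h4 (by positivity)
  refine h3.trans (h2.trans ?_)
  have e1 := var_eq D' (ev s) (fun _ => 1)
  simp only [one_mul] at e1
  rw [e1, var_eq]
  have hinj : ∀ z ∈ ev s, ∀ w ∈ ev s, z + x = w + x → z = w := fun z _ w _ h => add_right_cancel h
  have hT : (ev s).image (fun z => z + x) ⊆ T := by
    intro v hv
    obtain ⟨z, hz, rfl⟩ := Finset.mem_image.1 hv
    obtain ⟨hz1, hz2⟩ := Finset.mem_filter.1 hz
    refine (hfT _ ?_ ?_).1
    · rw [mem_Box] at hz1 ⊢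
      simpa using hz1
    · have : par (z + x) = par z + par x := by
        unfold par
        simp only [Prod.fst_add, Prod.snd_add]
        ring
      rw [this]
      exact hz2.add hx
  have hf1 : ∀ z ∈ ev s, 1 ≤ f (z + x) := by
    intro z hz
    obtain ⟨hz1, hz2⟩ := Finset.mem_filter.1 hz
    refine (hfT _ ?_ ?_).2
    · rw [mem_Box] at hz1 ⊢
      simpa using hz1
    · have : par (z + x) = par z + par x := by
        unfold par
        simp only [Prod.fst_add, Prod.snd_add]
        ring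
      rw [this]
      exact hz2.add hx
  have hcv : ∀ z w, MD.cv D' z w = MD.cv D (z + x) (w + x) := by
    intro z w
    have h4 := MD.cv_trans D (-x) hxn (z + x) (w + x)
    rw [hD', ← h4]
    simp
  have hnn : ∀ z ∈ T, ∀ w ∈ T, 0 ≤ f z * f w * MD.cv D z w := fun z hz w hw =>
    mul_nonneg (mul_nonneg (hf z hz) (hf w hw)) (MD.cv_nonneg D z w)
  calc ∑ z ∈ ev s, ∑ w ∈ ev s, MD.cv D' z w ≤
        ∑ z ∈ ev s, ∑ w ∈ ev s, f (z + x) * f (w + x) * MD.cv D (z + x) (w + x) := by
        refine Finset.sum_le_sum fun z hz => Finset.sum_le_sum fun w hw => ?_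
        rw [hcv]
        have h4 := MD.cv_nonneg D (z + x) (w + x)
        have h5 : 1 ≤ f (z + x) * f (w + x) := one_le_mul_of_one_le_of_one_le (hf1 z hz) (hf1 w hw)
        nlinarith
    _ = ∑ z ∈ (ev s).image (fun z => z + x), ∑ w ∈ (ev s).image (fun z => z + x), f z * f w * MD.cv D z w := by
        rw [Finset.sum_image hinj]
        refine Finset.sum_congr rfl fun z _ => ?_
        rw [Finset.sum_image hinj]
    _ ≤ ∑ z ∈ T, ∑ w ∈ (ev s).image (fun z => z + x), f z * f w * MD.cv D z w := by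
        refine Finset.sum_le_sum_of_subset_of_nonneg hT fun z hz _ =>
          Finset.sum_nonneg fun w hw => hnn z hz w (hT hw)
    _ ≤ ∑ z ∈ T, ∑ w ∈ T, f z * f w * MD.cv D z w := by
        refine Finset.sum_le_sum fun z hz => ?_
        exact Finset.sum_le_sum_of_subset_of_nonneg hT fun w hw _ => hnn z hz w hw

end KD
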