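import Pool.Agent.Helper14.KD.Defs

/-!
The charge of a head with the exact long runs `Lg` (as in project KP, B2, B3).
-/

open Finset RP4 KP

namespace KD

theorem up_or_long {h : V → ℤ} {x d : V} {R : ℕ} (hR : 1 ≤ R) (hd : d ∈ dirs) (hst : Unit' h x (R + 2))
    (h0 : h (pt x d (-1)) = h x + 1) (h1 : h (pt x d 1) = h x - 1)
    (h2 : h (pt x (prp d) 1) = h x + 1) (h3 : h (pt x (prp d) (-1)) = h x + 1) :
    (∃ l, 2 ≤ l ∧ l ≤ R ∧ Up h x d l) ∨ Lg h x d R := by
  by_cases hno : ∃ l, 2 ≤ l ∧ l ≤ R ∧ Up h x d l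
  · exact Or.inl hno
  right
  have hrun : ∀ n : ℕ, n < R → ∀ i : ℤ, 0 ≤ i → i ≤ n →
      h (pt x d i) = h x - i ∧ h (pt (pt x d i) (prp d) 1) = h x - i + 1 ∧
        h (pt (pt x d i) (prp d) (-1)) = h x - i + 1 := by
    intro n
    induction n with
    | zero =>
      intro _ i hi0 hi1
      have hi : i = 0 := by
        push_cast at hi1
        omega
      subst hi
      refine ⟨by rw [b2_pt0]; ring, by rw [b2_pt0, h2]; ring, by rw [b2_pt0, h3]; ring⟩
    | succ n ih =>
      intro hn i hi0 hi1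
      have hnR : n < R := by omega
      by_cases hin : i ≤ n
      · exact ih hnR i hi0 hin
      have hi : i = (n : ℤ) + 1 := by
        push_cast at hi1
        omega
      have hstep := b2_next hd hst h0 h1 hno hnR (ih hnR)
      obtain ⟨ha, hb, hc⟩ := ih hnR n (by positivity) le_rfl
      rw [hi]
      refine ⟨hstep, ?_, ?_⟩
      · have e1 := hst (pt (pt x d n) (prp d) 1) (pt (pt x d ((n : ℤ) + 1)) (prp d) 1)
          (by rw [b2_dist2 hd]; simp; omega) (by rw [b2_dist2 hd, abs_of_nonneg (by positivity)]; simp; omega)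
          (b2_adj2 hd n 1)
        have e2 := hst (pt x d ((n : ℤ) + 1)) (pt (pt x d ((n : ℤ) + 1)) (prp d) 1)
          (by rw [b2_dist1 hd, abs_of_nonneg (by positivity)]; omega)
          (by rw [b2_dist2 hd, abs_of_nonneg (by positivity)]; simp; omega)
          (b2_adj3 hd _ (Or.inl rfl))
        rw [hb] at e1
        rw [hstep] at e2
        rcases abs_eq (by norm_num : (0 : ℤ) ≤ 1) |>.1 e1 with e1 | e1 <;>
          rcases abs_eq (by norm_num : (0 : ℤ) ≤ 1) |>.1 e2 with e2 | e2 <;> omega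
      · have e1 := hst (pt (pt x d n) (prp d) (-1)) (pt (pt x d ((n : ℤ) + 1)) (prp d) (-1))
          (by rw [b2_dist2 hd]; simp; omega) (by rw [b2_dist2 hd, abs_of_nonneg (by positivity)]; simp; omega)
          (b2_adj2 hd n (-1))
        have e2 := hst (pt x d ((n : ℤ) + 1)) (pt (pt x d ((n : ℤ) + 1)) (prp d) (-1))
          (by rw [b2_dist1 hd, abs_of_nonneg (by positivity)]; omega)
          (by rw [b2_dist2 hd, abs_of_nonneg (by positivity)]; simp; omega)
          (b2_adj3 hd _ (Or.inr rfl))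
        rw [hc] at e1
        rw [hstep] at e2
        rcases abs_eq (by norm_num : (0 : ℤ) ≤ 1) |>.1 e1 with e1 | e1 <;>
          rcases abs_eq (by norm_num : (0 : ℤ) ≤ 1) |>.1 e2 with e2 | e2 <;> omega
  have hlast := b2_next hd hst h0 h1 hno (n := R - 1) (by omega) (hrun (R - 1) (by omega))
  have hcast : (((R - 1 : ℕ) : ℤ) + 1) = R := by
    push_cast [Nat.cast_sub hR]
    ring
  rw [hcast] at hlast
  refine ⟨fun i hi0 hi1 => hrun (R - 1) (by omega) i hi0 (by omega), h0, hlast⟩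

/-! ### B3: the charge of a head -/

private lemma B3a_pt_zero (x d : V) : pt x d 0 = x := by
  simp [pt]

private lemma B3a_ind_pos {p : Prop} (h : p) : ind p = 1 := by
  unfold ind
  rw [if_pos h]

private lemma B3a_ind_neg {p : Prop} (h : ¬ p) : ind p = 0 := by
  unfold ind
  rw [if_neg h]

/-- charge of the towers of one direction -/
private lemma B3a_dir {h : V → ℤ} {x d : V} {R : ℕ} (hR : 1 ≤ R) (hd : d ∈ dirs)
    (hst : Unit' h x (R + 2)) {e₀ e₁ e₂ e₃ : ℤ} (h₀ : h (pt x d 1) = h x + e₀)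
    (h₁ : h (pt x d (-1)) = h x + e₁) (h₂ : h (pt x (prp d) 1) = h x + e₂)
    (h₃ : h (pt x (prp d) (-1)) = h x + e₃) :
    (¬ (e₁ = 1 ∧ e₂ = 1 ∧ e₃ = 1) →
      ∑ l ∈ Icc 1 R, (l : ℝ) * (2 * rho l * ind (Up h x d l)) = 0) ∧
    (e₁ = 1 → e₂ = 1 → e₃ = 1 → e₀ = 1 →
      ∑ l ∈ Icc 1 R, (l : ℝ) * (2 * rho l * ind (Up h x d l)) = 1) ∧
    (e₁ = 1 → e₂ = 1 → e₃ = 1 → e₀ = -1 →
      ∑ l ∈ Icc 1 R, (l : ℝ) * (2 * rho l * ind (Up h x d l)) ≤ 2 ∧
      2 - 2 * ind (Lg h x d R) ≤
        ∑ l ∈ Icc 1 R, (l : ℝ) * (2 * rho l * ind (Up h x d l))) := by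
  have key : ∀ l, Up h x d l → e₁ = 1 ∧ e₂ = 1 ∧ e₃ = 1 := by
    intro l hl
    have hpos : (0 : ℤ) < l := by exact_mod_cast hl.pos
    have a1 := hl.head
    have a2 := hl.side1 0 le_rfl hpos
    have a3 := hl.side2 0 le_rfl hpos
    rw [B3a_pt_zero] at a2 a3
    omega
  have hR1 : 1 ∈ Icc 1 R := Finset.mem_Icc.2 ⟨le_rfl, hR⟩
  refine ⟨fun hn => ?_, fun h1 h2 h3 h0 => ?_, fun h1 h2 h3 h0 => ?_⟩
  · refine Finset.sum_eq_zero fun l _ => ?_
    rw [B3a_ind_neg (fun hl => hn (key l hl))]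
    ring
  · subst h1 h2 h3 h0
    have hup : Up h x d 1 := by
      refine ⟨le_rfl, ?_, ?_, ?_, h₁, ?_⟩
      · intro i h4 h5
        have h6 : i = 0 := by
          push_cast at h5
          omega
        rw [h6, B3a_pt_zero]
        ring
      · intro i h4 h5
        have h6 : i = 0 := by
          push_cast at h5
          omega
        rw [h6, B3a_pt_zero, h₂]
        ring
      · intro i h4 h5
        have h6 : i = 0 := by
          push_cast at h5
          omega
        rw [h6, B3a_pt_zero, h₃]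
        ring
      · rw [Nat.cast_one, h₀]
        ring
    rw [Finset.sum_eq_single_of_mem 1 hR1]
    · rw [B3a_ind_pos hup]
      unfold rho
      norm_num
    · intro l _ hl1
      rw [B3a_ind_neg (fun hl => hl1 (up_len_unique hl hup))]
      ring
  · subst h1 h2 h3 h0
    have hno : ¬ Up h x d 1 := by
      intro hl
      have a1 := hl.tail
      rw [Nat.cast_one, h₀] at a1
      omega
    by_cases hex : ∃ l ∈ Icc 1 R, Up h x d l
    · obtain ⟨l, hlm, hl⟩ := hex
      have hl1 : l ≠ 1 := fun e => hno (e ▸ hl)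
      have hl0 : (l : ℝ) ≠ 0 := by
        have := hl.pos
        positivity
      have hsum : ∑ l ∈ Icc 1 R, (l : ℝ) * (2 * rho l * ind (Up h x d l)) = 2 := by
        rw [Finset.sum_eq_single_of_mem l hlm]
        · rw [B3a_ind_pos hl]
          unfold rho
          rw [if_neg hl1]
          field_simp
        · intro l' _ hl'
          rw [B3a_ind_neg (fun hl'' => hl' (up_len_unique hl'' hl))]
          ring
      rw [hsum]
      have := ind_nonneg (Lg h x d R)
      exact ⟨le_rfl, by linarith⟩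
    · have hsum : ∑ l ∈ Icc 1 R, (l : ℝ) * (2 * rho l * ind (Up h x d l)) = 0 := by
        refine Finset.sum_eq_zero fun l hlm => ?_
        rw [B3a_ind_neg (fun hl => hex ⟨l, hlm, hl⟩)]
        ring
      have hlong : Lg h x d R := by
        rcases up_or_long hR hd hst h₁ (by rw [h₀]; ring) h₂ h₃ with ⟨l, h4, h5, h6⟩ | h4
        · exact absurd ⟨l, Finset.mem_Icc.2 ⟨by omega, h5⟩, h6⟩ hex
        · exact h4
      have hind : ind (Lg h x d R) = 1 := B3a_ind_pos hlong
      rw [hsum, hind]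
      norm_num

private lemma B3a_nbr {h : V → ℤ} {x y : V} {R : ℕ} (hst : Unit' h x (R + 2)) (hy : Adj x y) :
    ∃ e : ℤ, h y = h x + e ∧ (e = 1 ∨ e = -1) := by
  have h1 : |h x - h y| = 1 := by
    refine hst x y ?_ ?_ hy
    · unfold dist1
      simp
      positivity
    · have h2 : dist1 x y = 1 := hy
      rw [h2]
      omega
  refine ⟨h y - h x, by ring, ?_⟩
  rcases abs_eq (zero_le_one) |>.1 h1 with h2 | h2
  · right
    omega
  · left
    omega

/-
The four neighbours of `x` are `h x ± 1`, so `Lap h x ∈ {-4, -2, 0, 2, 4}`.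
`Lap = 4` (all four higher): `Up h x d 1` for all four `d` (each contributes `1 * (2 * (1/2) * 1) = 1`), none for `l ≥ 2` (`h (pt x d 1) = h x - 1` fails); `chgU = 4`.
`Lap = 2` (three higher, lower one in direction `d`): `Up h x d' l` implies `d' = d`, `l ≥ 2`, and at most one `l` (`up_len_unique`): `chgU ∈ {0, 2}`
(`l * (2 * (1/l)) = 2`), and if it is `0` then `lng ≥ 1` by `up_or_long`.
`Lap ≤ 0`: at most two neighbours are higher, no `Up` (three neighbours `pt x d (-1)`, `pt (pt x d 0) (prp d) (±1)` are higher in an up tower): `chgU = 0`.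
-/
theorem chgU_bounds {h : V → ℤ} {x : V} {R : ℕ} (hR : 1 ≤ R) (hst : Unit' h x (R + 2)) :
    max (Lap h x : ℝ) 0 - 2 * lngU R h x ≤ chgU R h x ∧ chgU R h x ≤ max (Lap h x : ℝ) 0 := by
  obtain ⟨eE, hE, hE'⟩ := B3a_nbr (y := (x.1 + 1, x.2)) hst (by simp [Adj])
  obtain ⟨eW, hW, hW'⟩ := B3a_nbr (y := (x.1 - 1, x.2)) hst (by simp [Adj])
  obtain ⟨eN, hN, hN'⟩ := B3a_nbr (y := (x.1, x.2 + 1)) hst (by simp [Adj])
  obtain ⟨eS, hS, hS'⟩ := B3a_nbr (y := (x.1, x.2 - 1)) hst (by simp [Adj])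
  have pE : pt x (1, 0) 1 = (x.1 + 1, x.2) := by simp [pt]
  have pW : pt x (1, 0) (-1) = (x.1 - 1, x.2) := by simp [pt, sub_eq_add_neg]
  have pN : pt x (0, 1) 1 = (x.1, x.2 + 1) := by simp [pt]
  have pS : pt x (0, 1) (-1) = (x.1, x.2 - 1) := by simp [pt, sub_eq_add_neg]
  have qE : pt x (-1, 0) (-1) = (x.1 + 1, x.2) := by simp [pt]
  have qW : pt x (-1, 0) 1 = (x.1 - 1, x.2) := by simp [pt, sub_eq_add_neg]
  have qN : pt x (0, -1) (-1) = (x.1, x.2 + 1) := by simp [pt]
  have qS : pt x (0, -1) 1 = (x.1, x.2 - 1) := by simp [pt, sub_eq_add_neg]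
  obtain ⟨a1, a2, a3⟩ := B3a_dir (d := (1, 0)) hR (by simp [dirs]) hst (by rw [pE]; exact hE)
    (by rw [pW]; exact hW) (by change h (pt x (0, 1) 1) = _; rw [pN]; exact hN)
    (by change h (pt x (0, 1) (-1)) = _; rw [pS]; exact hS)
  obtain ⟨b1, b2, b3⟩ := B3a_dir (d := (-1, 0)) hR (by simp [dirs]) hst (by rw [qW]; exact hW)
    (by rw [qE]; exact hE) (by change h (pt x (0, -1) 1) = _; rw [qS]; exact hS)
    (by change h (pt x (0, -1) (-1)) = _; rw [qN]; exact hN)
  obtain ⟨c1, c2, c3⟩ := B3a_dir (d := (0, 1)) hR (by simp [dirs]) hst (by rw [pN]; exact hN)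
    (by rw [pS]; exact hS) (by change h (pt x (1, 0) 1) = _; rw [pE]; exact hE)
    (by change h (pt x (1, 0) (-1)) = _; rw [pW]; exact hW)
  obtain ⟨d1, d2, d3⟩ := B3a_dir (d := (0, -1)) hR (by simp [dirs]) hst (by rw [qS]; exact hS)
    (by rw [qN]; exact hN) (by change h (pt x (-1, 0) 1) = _; rw [qW]; exact hW)
    (by change h (pt x (-1, 0) (-1)) = _; rw [qE]; exact hE)
  have hL : (Lap h x : ℝ) = (eE : ℝ) + eW + eN + eS := by
    unfold Lap
    rw [hE, hW, hN, hS]
    push_cast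
    ring
  have hsum : ∀ f : V → ℝ, ∑ d ∈ dirs, f d = f (1, 0) + f (-1, 0) + f (0, 1) + f (0, -1) := by
    intro f
    unfold dirs
    rw [Finset.sum_insert (by decide), Finset.sum_insert (by decide),
      Finset.sum_insert (by decide), Finset.sum_singleton]
    ring
  unfold chgU lngU
  rw [hL, hsum, hsum]
  have i1 := ind_nonneg (Lg h x (1, 0) R)
  have i2 := ind_nonneg (Lg h x (-1, 0) R)
  have i3 := ind_nonneg (Lg h x (0, 1) R)
  have i4 := ind_nonneg (Lg h x (0, -1) R)
  generalize ∑ l ∈ Icc 1 R, (l : ℝ) * (2 * rho l * ind (Up h x (1, 0) l)) = A at *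
  generalize ∑ l ∈ Icc 1 R, (l : ℝ) * (2 * rho l * ind (Up h x (-1, 0) l)) = B at *
  generalize ∑ l ∈ Icc 1 R, (l : ℝ) * (2 * rho l * ind (Up h x (0, 1) l)) = C at *
  generalize ∑ l ∈ Icc 1 R, (l : ℝ) * (2 * rho l * ind (Up h x (0, -1) l)) = D at *
  generalize ind (Lg h x (1, 0) R) = I1 at *
  generalize ind (Lg h x (-1, 0) R) = I2 at *
  generalize ind (Lg h x (0, 1) R) = I3 at *
  generalize ind (Lg h x (0, -1) R) = I4 at *
  clear hE hW hN hS hL
  rcases hE' with rfl | rfl <;> rcases hW' with rfl | rfl <;> rcases hN' with rfl | rfl <;>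
    rcases hS' with rfl | rfl <;>
    norm_num at a1 a2 a3 b1 b2 b3 c1 c2 c3 d1 d2 d3 ⊢ <;>
    constructor <;> linarith

/-
`chg R h x = chgU R h x - chgU R (-h) x` and `Lap (-h) = -Lap h`, `lng R (-h) = lng R h`; `chgU_bounds` for `h` and `-h`.
-/
theorem chg_sub_lap {h : V → ℤ} {x : V} {R : ℕ} (hR : 1 ≤ R) (hst : Unit' h x (R + 2)) :
    |chg R h x - Lap h x| ≤ 2 * (lngU R h x + lngU R (fun v => -h v) x) := by
  have hst' : Unit' (fun v => -h v) x (R + 2) := by
    intro u v hu hv ha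
    have h1 := hst u v hu hv ha
    have e1 : -h u - -h v = -(h u - h v) := by ring
    show |-h u - -h v| = 1
    rw [e1, abs_neg, h1]
  have hlap : Lap (fun v => -h v) x = -Lap h x := by
    unfold Lap
    ring
  have hl0 : 0 ≤ lngU R h x := by
    unfold lngU
    exact Finset.sum_nonneg fun d _ => ind_nonneg _
  have hl1 : 0 ≤ lngU R (fun v => -h v) x := by
    unfold lngU
    exact Finset.sum_nonneg fun d _ => ind_nonneg _
  have hchg : chg R h x = chgU R h x - chgU R (fun v => -h v) x := by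
    unfold chg chgU
    rw [← Finset.sum_sub_distrib]
    refine Finset.sum_congr rfl fun d _ => ?_
    rw [← Finset.sum_sub_distrib]
    refine Finset.sum_congr rfl fun l _ => ?_
    unfold tw Down
    ring
  obtain ⟨a1, a2⟩ := chgU_bounds hR hst
  obtain ⟨b1, b2⟩ := chgU_bounds hR hst'
  rw [hlap] at b1
  rw [hlap] at b2
  push_cast at b1 b2
  have hm : max (Lap h x : ℝ) 0 - max (-(Lap h x : ℝ)) 0 = Lap h x := by
    rcases le_total (Lap h x : ℝ) 0 with h0 | h0
    · rw [max_eq_right h0, max_eq_left (by linarith)]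
      ring
    · rw [max_eq_left h0, max_eq_right (by linarith)]
      ring
  rw [hchg, abs_le]
  constructor <;> linarith


end KD
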